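import Pool.Agent.Q263.IV.Def

/-!
# Paths which return to their first point: the parameters are a null set
-/

set_option autoImplicit false

open Set MeasureTheory Function Filter Topology

namespace Q263.IV

open Pool.Agent.Y322.IV

theorem range_top {S : Type} [NormedAddCommGroup S] [NormedSpace ℝ S] {m : ℕ}
    (L : S × (Fin m → ℝ) →L[ℝ] (Fin m → ℝ) × ℝ) (c : S) (δ : ℝ) (hδ : δ ≠ 0)
    (hc : L (c, 0) = (0, δ))
    (h0 : ∀ j k : Fin m, k < j → (L (0, Pi.single j 1)).1 k = 0)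
    (h1 : ∀ j : Fin m, (L (0, Pi.single j 1)).1 j ≠ 0) : L.range = ⊤ := by
  by_contra hne
  obtain ⟨f, hf, hle⟩ := Submodule.exists_le_ker_of_lt_top _ (lt_top_iff_ne_top.2 hne)
  have hfL : ∀ x, f (L x) = 0 := fun x => hle ⟨x, rfl⟩
  have h2 : f (0, 1) = 0 := by
    have h3 := hfL (c, 0)
    rw [hc] at h3
    have h4 : ((0 : Fin m → ℝ), δ) = δ • ((0 : Fin m → ℝ), (1 : ℝ)) := by simp
    rw [h4, map_smul, smul_eq_mul] at h3
    exact (mul_eq_zero.1 h3).resolve_left hδ
  have hsum : ∀ y : Fin m → ℝ, ∀ r : ℝ, f (y, r) = ∑ k, y k * f (Pi.single k 1, 0) := by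
    intro y r
    have h3 : (y, r) = (∑ k, y k • ((Pi.single k 1 : Fin m → ℝ), (0 : ℝ))) +
        r • ((0 : Fin m → ℝ), (1 : ℝ)) := by
      ext i
      · simp [Prod.fst_sum, Finset.sum_apply, Pi.single_apply]
      · simp [Prod.snd_sum]
    rw [h3, map_add, map_smul, h2, smul_zero, add_zero, map_sum]
    exact Finset.sum_congr rfl fun k _ => by rw [map_smul, smul_eq_mul]
  have h3 : ∀ i : ℕ, ∀ j : Fin m, m ≤ (j : ℕ) + i → f (Pi.single j 1, 0) = 0 := by
    intro i
    induction i with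
    | zero => intro j hj; omega
    | succ i ih =>
      intro j hj
      have h4 := hfL (0, Pi.single j 1)
      have h5 : L (0, Pi.single j 1) = ((L (0, Pi.single j 1)).1, (L (0, Pi.single j 1)).2) := rfl
      rw [h5, hsum, Finset.sum_eq_single j] at h4
      · exact (mul_eq_zero.1 h4).resolve_left (h1 j)
      · intro k _ hkj
        rcases lt_or_gt_of_ne hkj with h6 | h6
        · rw [h0 j k h6, zero_mul]
        · rw [ih k (by have : (j : ℕ) < k := h6; omega), mul_zero]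
      · intro h; exact absurd (Finset.mem_univ j) h
  apply hf
  ext x
  · simp only [LinearMap.coe_comp, Function.comp_apply, LinearMap.coe_inl, LinearMap.zero_apply]
    simp [h3 m x (by omega)]
  · simp [h2]

section
variable {E S : Type} [NormedAddCommGroup E] [InnerProductSpace ℝ E] [FiniteDimensional ℝ E]
  [NormedAddCommGroup S] [NormedSpace ℝ S] [FiniteDimensional ℝ S]

omit [FiniteDimensional ℝ S] in
/-- The gradient in the second variable is `C¹` in both variables. -/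
theorem contDiff_grad2 {h : S → E → ℝ} (hh : ContDiff ℝ 2 (fun z : S × E => h z.1 z.2)) :
    ContDiff ℝ 1 (fun z : S × E => gradient (h z.1) z.2) := by
  have h1 : (fun z : S × E => gradient (h z.1) z.2) = fun z : S × E =>
      ∑ i, (fderiv ℝ (fun z : S × E => h z.1 z.2) z (0, stdOrthonormalBasis ℝ E i)) •
      stdOrthonormalBasis ℝ E i := by
    funext z
    rw [gradient_eq_sum (stdOrthonormalBasis ℝ E)]
    refine Finset.sum_congr rfl fun i _ => ?_
    congr 1
    have h2 : HasFDerivAt (fun x : E => (z.1, x)) (ContinuousLinearMap.inr ℝ S E) z.2 :=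
      hasFDerivAt_prodMk_right z.1 z.2
    have h3 : HasFDerivAt (fun z : S × E => h z.1 z.2)
        (fderiv ℝ (fun z : S × E => h z.1 z.2) (z.1, z.2)) (z.1, z.2) :=
      ((hh.differentiable (by norm_num)) _).hasFDerivAt
    have h4 : HasFDerivAt (h z.1) ((fderiv ℝ (fun z : S × E => h z.1 z.2) (z.1, z.2)).comp
        (ContinuousLinearMap.inr ℝ S E)) z.2 := h3.comp z.2 h2
    rw [h4.fderiv]
    simp
  rw [h1]
  have h2 : ContDiff ℝ 1 (fderiv ℝ (fun z : S × E => h z.1 z.2)) := hh.fderiv_right (by norm_num)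
  refine ContDiff.sum fun i _ => ?_
  exact (h2.clm_apply contDiff_const).smul contDiff_const

/-- The `k`-th length. -/
def ww {m : ℕ} (w : Fin m → ℝ) (k : ℕ) : ℝ := if h : k < m then w ⟨k, h⟩ else 0

/-- The path with the lengths `w`, for the function `h s`. -/
noncomputable def PU {m : ℕ} (h : S → E → ℝ) (y v : E) (z : S × (Fin m → ℝ)) : ℕ → E × E
  | 0 => (y, v)
  | k + 1 => ((PU h y v z k).1 + ww z.2 k • (PU h y v z k).2,
      (PU h y v z k).2 - (2 * inner ℝ (PU h y v z k).2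
        (gradient (h z.1) ((PU h y v z k).1 + ww z.2 k • (PU h y v z k).2)) /
        ‖gradient (h z.1) ((PU h y v z k).1 + ww z.2 k • (PU h y v z k).2)‖ ^ 2) •
        gradient (h z.1) ((PU h y v z k).1 + ww z.2 k • (PU h y v z k).2))

/-- The intersection of the line through `y` with direction `v` and the line through `X` with
direction `Y`. -/
noncomputable def cross (y v X Y : E) : E :=
  y + (inner ℝ (X - y) (v - inner ℝ v Y • Y) / (1 - inner ℝ v Y ^ 2)) • v

omit [FiniteDimensional ℝ E] in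
theorem cross_ne {v Y : E} (hv : ‖v‖ = 1) (hY : ‖Y‖ = 1) (h1 : Y ≠ v) (h2 : Y ≠ -v) :
    1 - inner ℝ v Y ^ 2 ≠ (0 : ℝ) := by
  intro h0
  have h3 : (inner ℝ v Y - 1 : ℝ) * (inner ℝ v Y + 1) = 0 := by linarith
  rcases mul_eq_zero.1 h3 with h4 | h4
  · apply h1
    have h5 : ‖v - Y‖ ^ 2 = 0 := by
      rw [norm_sub_sq_real, hv, hY]; linarith
    have h6 : v - Y = 0 := by
      rw [← norm_eq_zero]; exact pow_eq_zero_iff (two_ne_zero) |>.1 h5
    exact (sub_eq_zero.1 h6).symm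
  · apply h2
    have h5 : ‖v + Y‖ ^ 2 = 0 := by
      rw [norm_add_sq_real, hv, hY]; linarith
    have h6 : v + Y = 0 := by
      rw [← norm_eq_zero]; exact pow_eq_zero_iff (two_ne_zero) |>.1 h5
    exact eq_neg_of_add_eq_zero_right h6

omit [FiniteDimensional ℝ E] in
theorem cross_eq {y v X Y : E} {a t : ℝ} (hv : ‖v‖ = 1) (hY : ‖Y‖ = 1) (h1 : Y ≠ v) (h2 : Y ≠ -v)
    (h : y + a • v = X + t • Y) : cross y v X Y = y + a • v := by
  have hne := cross_ne hv hY h1 h2
  have h3 : X - y = a • v - t • Y := by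
    rw [sub_eq_sub_iff_add_eq_add, ← h]; abel
  unfold cross
  congr 2
  rw [div_eq_iff hne, h3, inner_sub_left, inner_sub_right, inner_sub_right,
    real_inner_smul_left, real_inner_smul_left, real_inner_smul_left, real_inner_smul_left,
    inner_smul_right, inner_smul_right, real_inner_self_eq_norm_sq, real_inner_self_eq_norm_sq,
    hv, hY, real_inner_comm v Y]
  ring

/-! ### The path of a good path -/

omit [FiniteDimensional ℝ S] in
theorem GoodPath.pu {h : S → E → ℝ} {s : S} {γ : E ≃ₗᵢ[ℝ] E} {y v : E} {m : ℕ} {a : ℝ}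
    {p u : ℕ → E} {τ : ℕ → ℝ} (H : GoodPath h s γ y v (m + 1) a p u τ) (w : Fin m → ℝ)
    (hw : ∀ k : Fin m, w k = if (k : ℕ) = 0 then a + τ 0 else τ k) :
    ∀ k < m, (PU h y v (s, w) (k + 1)) = (p (k + 1), u (k + 1)) := by
  have key : ∀ k < m, (PU h y v (s, w) k).1 + ww w k • (PU h y v (s, w) k).2 = p (k + 1) →
      (PU h y v (s, w) k).2 = u k → (PU h y v (s, w) (k + 1)) = (p (k + 1), u (k + 1)) := by
    intro k hk h1 h2
    simp only [PU]
    rw [h1, h2, H.refl k (by omega)]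
  intro k
  induction k with
  | zero =>
    intro hk
    refine key 0 hk ?_ ?_
    · simp only [PU, ww, dif_pos hk]
      rw [hw ⟨0, hk⟩, if_pos rfl, H.move 0 (by omega), H.start, H.dir, add_smul, add_assoc]
    · simp only [PU]
      rw [H.dir]
  | succ k ih =>
    intro hk
    have h1 := ih (by omega)
    refine key (k + 1) hk ?_ ?_
    · rw [h1]
      simp only [ww, dif_pos hk]
      rw [hw ⟨k + 1, hk⟩, if_neg (by simp), H.move (k + 1) (by omega)]
    · rw [h1]

omit [FiniteDimensional ℝ S] in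
/-- The last line goes through the last point. -/
theorem GoodPath.last {h : S → E → ℝ} {s : S} {γ : E ≃ₗᵢ[ℝ] E} {y v : E} {m : ℕ} {a : ℝ}
    {p u : ℕ → E} {τ : ℕ → ℝ} (H : GoodPath h s γ y v (m + 1) a p u τ) (w : Fin m → ℝ)
    (hw : ∀ k : Fin m, w k = if (k : ℕ) = 0 then a + τ 0 else τ k) :
    (PU h y v (s, w) m).2 = u m ∧ ∃ t : ℝ, p (m + 1) = (PU h y v (s, w) m).1 + t • u m := by
  rcases Nat.eq_zero_or_pos m with rfl | hm
  · refine ⟨H.dir.symm, a + τ 0, ?_⟩
    simp only [PU]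
    rw [H.move 0 (by omega), H.start, H.dir, add_smul, add_assoc]
  · have h1 := H.pu w hw (m - 1) (by omega)
    have e : m - 1 + 1 = m := by omega
    rw [e] at h1
    rw [h1]
    exact ⟨rfl, τ m, H.move m (by omega)⟩

/-- The equations of the paths. -/
noncomputable def Th (h : S → E → ℝ) (γ : E ≃ₗᵢ[ℝ] E) (y v : E) {m : ℕ} (z : S × (Fin m → ℝ)) :
    (Fin m → ℝ) × ℝ :=
  (fun k => h z.1 (PU h y v z (k + 1)).1,
    h z.1 (cross y v (γ.symm (PU h y v z m).1) (γ.symm (PU h y v z m).2)))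

omit [FiniteDimensional ℝ S] in
theorem GoodPath.cross {h : S → E → ℝ} {s : S} {γ : E ≃ₗᵢ[ℝ] E} {y v : E} {m : ℕ} {a : ℝ}
    {p u : ℕ → E} {τ : ℕ → ℝ} (H : GoodPath h s γ y v (m + 1) a p u τ) (hv : ‖v‖ = 1)
    (w : Fin m → ℝ) (hw : ∀ k : Fin m, w k = if (k : ℕ) = 0 then a + τ 0 else τ k) :
    (‖γ.symm (PU h y v (s, w) m).2‖ = 1 ∧ γ.symm (PU h y v (s, w) m).2 ≠ v ∧
      γ.symm (PU h y v (s, w) m).2 ≠ -v) ∧
    Q263.IV.cross y v (γ.symm (PU h y v (s, w) m).1) (γ.symm (PU h y v (s, w) m).2) = p 0 := by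
  obtain ⟨h1, t, h2⟩ := H.last w hw
  have hn : m + 1 - 1 = m := by omega
  have hu : ‖u m‖ = 1 := H.unit m (by omega)
  have e1 := H.non1
  have e2 := H.non2
  rw [hn] at e1 e2
  have a1 : ‖γ.symm (PU h y v (s, w) m).2‖ = 1 := by rw [h1, γ.symm.norm_map, hu]
  have a2 : γ.symm (PU h y v (s, w) m).2 ≠ v := by
    rw [h1]
    intro h0
    apply e1
    rw [H.dir, ← h0, γ.apply_symm_apply]
  have a3 : γ.symm (PU h y v (s, w) m).2 ≠ -v := by
    rw [h1]
    intro h0
    apply e2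
    rw [H.dir, ← map_neg, ← h0, γ.apply_symm_apply]
  refine ⟨⟨a1, a2, a3⟩, ?_⟩
  have h3 : y + a • v = γ.symm (PU h y v (s, w) m).1 + t • γ.symm (PU h y v (s, w) m).2 := by
    have h4 : p 0 = γ.symm (p (m + 1)) := by rw [H.ret, γ.symm_apply_apply]
    rw [← H.start, h4, h2, h1, map_add, map_smul]
  rw [cross_eq hv a1 a2 a3 h3, H.start]

omit [FiniteDimensional ℝ S] in
theorem GoodPath.th {h : S → E → ℝ} {s : S} {γ : E ≃ₗᵢ[ℝ] E} {y v : E} {m : ℕ} {a : ℝ}
    {p u : ℕ → E} {τ : ℕ → ℝ} (H : GoodPath h s γ y v (m + 1) a p u τ) (hv : ‖v‖ = 1)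
    (w : Fin m → ℝ) (hw : ∀ k : Fin m, w k = if (k : ℕ) = 0 then a + τ 0 else τ k) :
    Th h γ y v (s, w) = 0 := by
  refine Prod.ext (funext fun k => ?_) ?_
  · show h s (PU h y v (s, w) (k + 1)).1 = 0
    rw [H.pu w hw k k.2]
    exact H.zero _ (by omega)
  · show h s (Q263.IV.cross y v (γ.symm (PU h y v (s, w) m).1)
      (γ.symm (PU h y v (s, w) m).2)) = 0
    rw [(H.cross hv w hw).2]
    exact H.zero 0 (by omega)

omit [FiniteDimensional ℝ S] in
/-- Differentiability of the path. -/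
theorem contDiffAt_PU {h : S → E → ℝ} (hh : ContDiff ℝ 2 (fun z : S × E => h z.1 z.2)) (y v : E)
    {m : ℕ} (z : S × (Fin m → ℝ)) :
    ∀ k, (∀ j < k, gradient (h z.1) (PU h y v z (j + 1)).1 ≠ 0) →
      ContDiffAt ℝ 1 (fun z => PU h y v z k) z := by
  intro k
  induction k with
  | zero => intro _; exact contDiffAt_const
  | succ k ih =>
    intro hg
    have h1 := ih fun j hj => hg j (by omega)
    have h2 : ContDiffAt ℝ 1 (fun z : S × (Fin m → ℝ) => ww z.2 k) z := by
      unfold ww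
      split_ifs with hk
      · exact ((contDiff_apply ℝ ℝ (⟨k, hk⟩ : Fin m)).comp contDiff_snd).contDiffAt
      · exact contDiffAt_const
    have h3 : ContDiffAt ℝ 1 (fun z => (PU h y v z k).1 + ww z.2 k • (PU h y v z k).2) z :=
      h1.fst.add (h2.smul h1.snd)
    have h4 : ContDiffAt ℝ 1 (fun z : S × (Fin m → ℝ) => gradient (h z.1)
        ((PU h y v z k).1 + ww z.2 k • (PU h y v z k).2)) z := by
      have := (contDiff_grad2 hh).contDiffAt (x := (z.1, (PU h y v z k).1 + ww z.2 k •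
        (PU h y v z k).2))
      exact ContDiffAt.comp (g := fun z : S × E => gradient (h z.1) z.2)
        (f := fun z : S × (Fin m → ℝ) => (z.1, (PU h y v z k).1 + ww z.2 k • (PU h y v z k).2)) z
        this (contDiffAt_fst.prodMk h3)
    have h5 : gradient (h z.1) ((PU h y v z k).1 + ww z.2 k • (PU h y v z k).2) ≠ 0 :=
      hg k (by omega)
    refine h3.prodMk (h1.snd.sub (ContDiffAt.smul (ContDiffAt.div ?_ ?_ ?_) h4))
    · exact contDiffAt_const.mul (h1.snd.inner ℝ h4)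
    · exact h4.norm_sq ℝ
    · positivity

omit [FiniteDimensional ℝ S] in
theorem contDiffAt_Th {h : S → E → ℝ} (hh : ContDiff ℝ 2 (fun z : S × E => h z.1 z.2))
    (γ : E ≃ₗᵢ[ℝ] E) (y v : E) {m : ℕ} (z : S × (Fin m → ℝ))
    (hg : ∀ j < m, gradient (h z.1) (PU h y v z (j + 1)).1 ≠ 0)
    (hc : 1 - inner ℝ v (γ.symm (PU h y v z m).2) ^ 2 ≠ (0 : ℝ)) :
    ContDiffAt ℝ 1 (Th h γ y v) z := by
  have hh1 : ContDiff ℝ 1 (fun z : S × E => h z.1 z.2) := hh.of_le (by norm_num)
  have hP : ∀ k ≤ m, ContDiffAt ℝ 1 (fun z => PU h y v z k) z := fun k hk =>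
    contDiffAt_PU hh y v z k fun j hj => hg j (by omega)
  have hsy : ContDiff ℝ 1 (fun x : E => γ.symm x) := γ.symm.contDiff
  have hX : ContDiffAt ℝ 1 (fun z => γ.symm (PU h y v z m).1) z :=
    hsy.contDiffAt.comp z (hP m le_rfl).fst
  have hY : ContDiffAt ℝ 1 (fun z => γ.symm (PU h y v z m).2) z :=
    hsy.contDiffAt.comp z (hP m le_rfl).snd
  unfold Th
  refine ContDiffAt.prodMk ?_ ?_
  · refine contDiffAt_pi.2 fun k => ?_
    exact hh1.contDiffAt.comp z (contDiffAt_fst.prodMk (hP (k + 1) (by omega)).fst)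
  · refine hh1.contDiffAt.comp z (contDiffAt_fst.prodMk ?_)
    refine contDiffAt_const.add (ContDiffAt.smul (ContDiffAt.div ?_ ?_ hc) contDiffAt_const)
    · exact (hX.sub contDiffAt_const).inner ℝ
        (contDiffAt_const.sub ((contDiffAt_const.inner ℝ hY).smul hY))
    · exact contDiffAt_const.sub ((contDiffAt_const.inner ℝ hY).pow 2)

omit [NormedAddCommGroup S] [NormedSpace ℝ S] [FiniteDimensional ℝ S] in
/-- The path does not change if the parameter is changed without effect at the bounce points. -/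
theorem PU_eq_of {h : S → E → ℝ} {s s' : S} {y v : E} {m : ℕ} (w : Fin m → ℝ)
    (hs : ∀ k < m, gradient (h s') (PU h y v (s, w) (k + 1)).1 =
      gradient (h s) (PU h y v (s, w) (k + 1)).1) :
    ∀ k ≤ m, PU h y v (s', w) k = PU h y v (s, w) k := by
  intro k
  induction k with
  | zero => intro _; rfl
  | succ k ih =>
    intro hk
    have h1 := ih (by omega)
    have h2 := hs k (by omega)
    have e : ∀ s'' : S, PU h y v (s'', w) (k + 1) =
      ((PU h y v (s'', w) k).1 + ww w k • (PU h y v (s'', w) k).2,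
      (PU h y v (s'', w) k).2 - (2 * inner ℝ (PU h y v (s'', w) k).2
        (gradient (h s'') ((PU h y v (s'', w) k).1 + ww w k • (PU h y v (s'', w) k).2)) /
        ‖gradient (h s'') ((PU h y v (s'', w) k).1 + ww w k • (PU h y v (s'', w) k).2)‖ ^ 2) •
        gradient (h s'') ((PU h y v (s'', w) k).1 + ww w k • (PU h y v (s'', w) k).2)) :=
      fun _ => rfl
    rw [e s'] 
    rw [e s] at h2 ⊢
    simp only at h2
    rw [h1, h2]

omit [NormedAddCommGroup S] [NormedSpace ℝ S] [FiniteDimensional ℝ S] in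
/-- The path does not change before the length number `j` if only this length is changed. -/
theorem PU_eq_of_len {h : S → E → ℝ} {s : S} {y v : E} {m : ℕ} (w w' : Fin m → ℝ) (j : ℕ)
    (hw : ∀ k : Fin m, (k : ℕ) < j → w' k = w k) :
    ∀ k ≤ j, PU h y v (s, w') k = PU h y v (s, w) k := by
  intro k
  induction k with
  | zero => intro _; rfl
  | succ k ih =>
    intro hk
    have h1 := ih (by omega)
    have h2 : ww w' k = ww w k := by
      unfold ww
      split_ifs with h3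
      · exact hw ⟨k, h3⟩ (by simp only; omega)
      · rfl
    simp only [PU]
    rw [h1, h2]

omit [FiniteDimensional ℝ S] in
theorem GoodPath.vel {h : S → E → ℝ} {s : S} {γ : E ≃ₗᵢ[ℝ] E} {y v : E} {m : ℕ} {a : ℝ}
    {p u : ℕ → E} {τ : ℕ → ℝ} (H : GoodPath h s γ y v (m + 1) a p u τ) (w : Fin m → ℝ)
    (hw : ∀ k : Fin m, w k = if (k : ℕ) = 0 then a + τ 0 else τ k) {j : ℕ} (hj : j < m) :
    (PU h y v (s, w) j).2 = u j ∧ (PU h y v (s, w) j).1 + ww w j • u j = p (j + 1) := by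
  have h1 : (PU h y v (s, w) j).2 = u j := by
    rcases Nat.eq_zero_or_pos j with rfl | h0
    · exact H.dir.symm
    · have h2 := H.pu w hw (j - 1) (by omega)
      have e : j - 1 + 1 = j := by omega
      rw [e] at h2
      rw [h2]
  refine ⟨h1, ?_⟩
  have h2 := H.pu w hw j hj
  have h3 : (PU h y v (s, w) (j + 1)).1 = (PU h y v (s, w) j).1 + ww w j •
      (PU h y v (s, w) j).2 := rfl
  rw [h1] at h3
  rw [← h3, h2]

omit [FiniteDimensional ℝ S] in
theorem GoodPath.surj {h : S → E → ℝ} (hh : ContDiff ℝ 2 (fun z : S × E => h z.1 z.2)) {s : S}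
    {γ : E ≃ₗᵢ[ℝ] E} {y v : E} {m : ℕ} {a : ℝ}
    {p u : ℕ → E} {τ : ℕ → ℝ} (H : GoodPath h s γ y v (m + 1) a p u τ) (hv : ‖v‖ = 1)
    (w : Fin m → ℝ) (hw : ∀ k : Fin m, w k = if (k : ℕ) = 0 then a + τ 0 else τ k) :
    HasStrictFDerivAt (Th h γ y v) (fderiv ℝ (Th h γ y v (m := m)) (s, w)) (s, w) ∧
      (fderiv ℝ (Th h γ y v (m := m)) (s, w)).range = ⊤ := by
  obtain ⟨⟨a1, a2, a3⟩, a4⟩ := H.cross hv w hw
  have hp := H.pu w hw
  have hcd : ContDiffAt ℝ 1 (Th h γ y v (m := m)) (s, w) := by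
    refine contDiffAt_Th hh γ y v (s, w) (fun j hj => ?_) (cross_ne hv a1 a2 a3)
    rw [hp j hj]
    exact H.grad j (by omega)
  have hst : HasStrictFDerivAt (Th h γ y v) (fderiv ℝ (Th h γ y v (m := m)) (s, w)) (s, w) :=
    hcd.hasStrictFDerivAt one_ne_zero
  refine ⟨hst, ?_⟩
  set L := fderiv ℝ (Th h γ y v (m := m)) (s, w) with hL
  obtain ⟨c, hc1, δ, hδ, hc2⟩ := H.sep
  have hline : ∀ q : S × (Fin m → ℝ), HasDerivAt (fun ε : ℝ => Th h γ y v ((s, w) + ε • q)) (L q) 0 := by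
    intro q
    have h1 : HasDerivAt (fun ε : ℝ => (s, w) + ε • q) q 0 := by
      simpa using ((hasDerivAt_id (0 : ℝ)).smul_const q).const_add (s, w)
    have h2 : HasFDerivAt (Th h γ y v (m := m)) L ((s, w) + (0 : ℝ) • q) := by
      rw [zero_smul, add_zero]; exact hst.hasFDerivAt
    exact h2.comp_hasDerivAt 0 h1
  refine range_top L c δ hδ ?_ ?_ ?_
  · -- the direction `c`
    have h1 := hline (c, 0)
    have h2 : ∀ᶠ ε in 𝓝 (0 : ℝ), ∀ k ∈ Ioo 0 (m + 1), h (s + ε • c) (p k) = h s (p k) ∧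
        gradient (h (s + ε • c)) (p k) = gradient (h s) (p k) :=
      (Filter.eventually_all_finite (Set.finite_Ioo 0 (m + 1))).2 fun k hk => hc1 k hk.1 hk.2
    have h3 : (fun ε : ℝ => Th h γ y v ((s, w) + ε • (c, (0 : Fin m → ℝ)))) =ᶠ[𝓝 0]
        fun ε : ℝ => ((0 : Fin m → ℝ), h (s + ε • c) (p 0)) := by
      filter_upwards [h2] with ε hε
      have e1 : (s, w) + ε • (c, (0 : Fin m → ℝ)) = (s + ε • c, w) := by
        ext <;> simp
      rw [e1]
      have h4 := PU_eq_of (h := h) (s := s) (s' := s + ε • c) (y := y) (v := v) w (fun k hk => by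
        rw [hp k hk]
        exact (hε (k + 1) ⟨by omega, by omega⟩).2)
      refine Prod.ext (funext fun k => ?_) ?_
      · show h (s + ε • c) (PU h y v (s + ε • c, w) (k + 1)).1 = 0
        rw [h4 (k + 1) (by omega), hp k k.2]
        rw [(hε (k + 1) ⟨by omega, by omega⟩).1]
        exact H.zero _ (by omega)
      · show h (s + ε • c) (Q263.IV.cross y v (γ.symm (PU h y v (s + ε • c, w) m).1)
          (γ.symm (PU h y v (s + ε • c, w) m).2)) = h (s + ε • c) (p 0)
        rw [h4 m le_rfl, a4]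
    have h5 : HasDerivAt (fun ε : ℝ => ((0 : Fin m → ℝ), h (s + ε • c) (p 0))) (0, δ) 0 :=
      (hasDerivAt_const (0 : ℝ) (0 : Fin m → ℝ)).prodMk hc2
    exact h1.unique (h5.congr_of_eventuallyEq h3)
  · -- the lengths, upper triangle
    intro j k hkj
    have h1 := (hasDerivAt_pi.1 (hline (0, Pi.single j 1)).fst) k
    refine h1.unique ?_
    have h2 : (fun ε : ℝ => (Th h γ y v ((s, w) + ε • ((0 : S), (Pi.single j 1 : Fin m → ℝ)))).1 k) =
        fun ε : ℝ => h s (PU h y v (s, w) (k + 1)).1 := by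
      funext ε
      have e1 : (s, w) + ε • ((0 : S), (Pi.single j 1 : Fin m → ℝ)) =
          (s, w + ε • (Pi.single j 1 : Fin m → ℝ)) := by
        ext <;> simp
      rw [e1]
      show h s (PU h y v (s, w + ε • (Pi.single j 1 : Fin m → ℝ)) (k + 1)).1 = _
      rw [PU_eq_of_len w (w + ε • (Pi.single j 1 : Fin m → ℝ)) j ?_ (k + 1)
        (by have : (k : ℕ) < j := hkj; omega)]
      intro i hi
      have : i ≠ j := by rintro rfl; exact lt_irrefl _ hi
      simp [this]
    rw [h2]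
    exact hasDerivAt_const _ _
  · -- the lengths, diagonal
    intro j
    obtain ⟨v1, v2⟩ := H.vel w hw j.2
    have h1 := (hasDerivAt_pi.1 (hline (0, Pi.single j 1)).fst) j
    have h2 : (fun ε : ℝ => (Th h γ y v ((s, w) + ε • ((0 : S), (Pi.single j 1 : Fin m → ℝ)))).1 j) =
        fun ε : ℝ => h s (p (j + 1) + ε • u j) := by
      funext ε
      have e1 : (s, w) + ε • ((0 : S), (Pi.single j 1 : Fin m → ℝ)) =
          (s, w + ε • (Pi.single j 1 : Fin m → ℝ)) := by
        ext <;> simp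
      rw [e1]
      show h s (PU h y v (s, w + ε • (Pi.single j 1 : Fin m → ℝ)) (j + 1)).1 = _
      have h3 := PU_eq_of_len (h := h) (s := s) (y := y) (v := v) w
        (w + ε • (Pi.single j 1 : Fin m → ℝ)) j (fun i hi => by
          have : i ≠ j := by rintro rfl; exact lt_irrefl _ hi
          simp [this]) j le_rfl
      have h4 : (PU h y v (s, w + ε • (Pi.single j 1 : Fin m → ℝ)) (j + 1)).1 =
          (PU h y v (s, w + ε • (Pi.single j 1 : Fin m → ℝ)) j).1 +
          ww (w + ε • (Pi.single j 1 : Fin m → ℝ)) j •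
          (PU h y v (s, w + ε • (Pi.single j 1 : Fin m → ℝ)) j).2 := rfl
      have h5 : ww (w + ε • (Pi.single j 1 : Fin m → ℝ)) j = ww w j + ε := by
        simp [ww]
      rw [h4, h3, v1, h5, add_smul, ← add_assoc, v2]
    have h6 : HasDerivAt (fun ε : ℝ => h s (p (j + 1) + ε • u j))
        (inner ℝ (u j) (gradient (h s) (p (j + 1)))) 0 := by
      rw [← fderiv_eq_inner]
      have h7 : HasDerivAt (fun ε : ℝ => p (j + 1) + ε • u j) (u j) 0 := by
        simpa using ((hasDerivAt_id (0 : ℝ)).smul_const (u j)).const_add (p (j + 1))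
      have h8 : Differentiable ℝ (h s) := by
        have : ContDiff ℝ 2 (h s) := hh.comp (contDiff_const.prodMk contDiff_id)
        exact this.differentiable (by norm_num)
      have h9 : HasFDerivAt (h s) (fderiv ℝ (h s) (p (j + 1))) (p (j + 1) + (0 : ℝ) • u j) := by
        rw [zero_smul, add_zero]; exact (h8 _).hasFDerivAt
      exact h9.comp_hasDerivAt 0 h7
    rw [h2] at h1
    have h10 : (L (0, Pi.single j 1)).1 j = inner ℝ (u j) (gradient (h s) (p (j + 1))) :=
      h1.unique h6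
    rw [h10]
    exact H.trans j (by omega)

end

theorem core (HP : S_PROJ) : S_CORE := by
  intro E _ _ _ S _ _ _ _ _ μ _ h hh γ y v n hn hv
  obtain ⟨m, rfl⟩ : ∃ m, n = m + 1 := ⟨n - 1, by omega⟩
  set P : Set (S × (Fin m → ℝ)) := {z | ∃ (a : ℝ) (p u : ℕ → E) (τ : ℕ → ℝ),
    GoodPath h z.1 γ y v (m + 1) a p u τ ∧
    ∀ k : Fin m, z.2 k = if (k : ℕ) = 0 then a + τ 0 else τ k} with hP
  have hloc : ∀ z ∈ P, ∃ N ∈ 𝓝 z, μ (Prod.fst '' (P ∩ N)) = 0 := by
    rintro ⟨s, w⟩ ⟨a, p, u, τ, H, hw⟩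
    obtain ⟨h1, h2⟩ := H.surj hh hv w hw
    obtain ⟨N, hN, h3⟩ := HP S (Fin m → ℝ) ((Fin m → ℝ) × ℝ) μ (Th h γ y v) _ (s, w) h1 h2
      (by simp)
    refine ⟨N, hN, measure_mono_null (image_mono ?_) h3⟩
    rintro ⟨s', w'⟩ ⟨⟨a', p', u', τ', H', hw'⟩, hz⟩
    refine ⟨hz, ?_⟩
    rw [H.th hv w hw, H'.th hv w' hw']
  choose! N hN hN0 using hloc
  obtain ⟨c, hcP, hcc, hcov⟩ := TopologicalSpace.countable_cover_nhdsWithin
    (s := P) (f := N) (fun z hz => mem_nhdsWithin_of_mem_nhds (hN z hz))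
  have hsub : {s | ∃ (a : ℝ) (p u : ℕ → E) (τ : ℕ → ℝ), GoodPath h s γ y v (m + 1) a p u τ} ⊆
      ⋃ z ∈ c, Prod.fst '' (P ∩ N z) := by
    rintro s ⟨a, p, u, τ, H⟩
    have hz : (s, fun k : Fin m => if (k : ℕ) = 0 then a + τ 0 else τ k) ∈ P :=
      ⟨a, p, u, τ, H, fun k => rfl⟩
    obtain ⟨z, hz1, hz2⟩ := mem_iUnion₂.1 (hcov hz)
    exact mem_iUnion₂.2 ⟨z, hz1, _, ⟨hz, hz2⟩, rfl⟩
  exact measure_mono_null hsub ((measure_biUnion_null_iff hcc).2 fun z hz => hN0 z (hcP hz))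

end Q263.IV
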