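import Pool.Agent.Y322.IV.Main

/-!
# Ivrii's conjecture for almost every member of finite dimensional families: definitions

`Traj h n p u` (`Pool/Agent/Y322/IV/Def.lean`): a piece of a billiard trajectory in the table
`{h < 0}` with the bounce points `p 0, ..., p n` and the outgoing velocities `u 0, ..., u n`.
Project IVP of helper263.
-/

set_option autoImplicit false

open Set MeasureTheory Function Filter Topology
open scoped unitInterval ContDiff

namespace Q263.IV

open Pool.Agent.Y322.IV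

/-- Closed version of a loop modulo the isometry `γ`: a trajectory of `n` steps which starts on the
oriented line through `y` with direction `e + w`, comes to the image under `γ` of its first bounce
point, does not come back along the image of the same line, and has all its constants bounded by `c`
and `M`. The function `ev b` is positive at the first bounce point and vanishes together with its
gradient `dev b` at all the bounce points in between. `G` stands for the gradient of `h`. -/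
structure Loop2 {E S : Type} [NormedAddCommGroup E] [InnerProductSpace ℝ E] [Norm S]
    (h : E → ℝ) (G : E → E) (γ : E ≃ₗᵢ[ℝ] E) (ev : S → E → ℝ) (dev : S → E → E) (e y w : E)
    (n : ℕ) (c M : ℝ) (a : ℝ) (p u : ℕ → E) (τ : ℕ → ℝ) (b : S) : Prop where
  ybd : ‖y‖ ≤ M
  wbd : ‖w‖ ≤ M
  abd : |a| ≤ M
  start : p 0 = y + a • (e + w)
  dir : ‖e + w‖ • u 0 = e + w
  zero : ∀ k ≤ n, h (p k) = 0
  unit : ∀ k ≤ n, ‖u k‖ = 1
  out : ∀ k ≤ n, inner ℝ (u k) (G (p k)) ≤ -c
  tlo : ∀ k < n, c ≤ τ k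
  thi : ∀ k < n, τ k ≤ M
  move : ∀ k < n, p (k + 1) = p k + τ k • u k
  neg : ∀ k < n, ∀ s ∈ Icc (0 : ℝ) (τ k), h (p k + s • u k) ≤ 0
  refl : ∀ k < n, ‖G (p (k + 1))‖ ^ 2 • u (k + 1) =
    ‖G (p (k + 1))‖ ^ 2 • u k - (2 * inner ℝ (u k) (G (p (k + 1)))) • G (p (k + 1))
  ret : p n = γ (p 0)
  nonret : c ≤ ‖u (n - 1) + γ (u 0)‖
  bbd : ‖b‖ ≤ M
  sep0 : c ≤ ev b (p 0)
  sep1 : ∀ k, 0 < k → k < n → ev b (p k) = 0
  sep2 : ∀ k, 0 < k → k < n → dev b (p k) = 0

/-- The set of the parameters `t` and lines `(y, w)` which carry a loop. -/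
def LoopSet2 {E S T : Type} [NormedAddCommGroup E] [InnerProductSpace ℝ E] [Norm S]
    (F : T → E → ℝ) (G : T → E → E) (γ : E ≃ₗᵢ[ℝ] E) (ev : S → E → ℝ) (dev : S → E → E) (e : E)
    (n : ℕ) (c M : ℝ) : Set (T × ((ℝ ∙ e)ᗮ × (ℝ ∙ e)ᗮ)) :=
  {z | ∃ (a : ℝ) (p u : ℕ → E) (τ : ℕ → ℝ) (b : S),
    Loop2 (F z.1) (G z.1) γ ev dev e (z.2.1 : E) (z.2.2 : E) n c M a p u τ b}

/-- The lines which carry a loop for the table `{h < 0}`. -/
def Lines2 {E S : Type} [NormedAddCommGroup E] [InnerProductSpace ℝ E] [CompleteSpace E] [Norm S]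
    (h : E → ℝ) (γ : E ≃ₗᵢ[ℝ] E) (ev : S → E → ℝ) (dev : S → E → E) (e : E) (n : ℕ) (c M : ℝ) :
    Set ((ℝ ∙ e)ᗮ × (ℝ ∙ e)ᗮ) :=
  {z | ∃ (a : ℝ) (p u : ℕ → E) (τ : ℕ → ℝ) (b : S),
    Loop2 h (gradient h) γ ev dev e (z.1 : E) (z.2 : E) n c M a p u τ b}

/-- A path of `n` steps for the function `h s`, which starts on the line through `y` with direction
`v`, ends at the image of its first point, not along the image of the line, and whose first
point can be moved by a direction `c` of the parameter space which does not affect the other points.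
-/
structure GoodPath {E S : Type} [NormedAddCommGroup E] [InnerProductSpace ℝ E] [CompleteSpace E]
    [NormedAddCommGroup S] [NormedSpace ℝ S] (h : S → E → ℝ) (s : S) (γ : E ≃ₗᵢ[ℝ] E) (y v : E)
    (n : ℕ) (a : ℝ) (p u : ℕ → E) (τ : ℕ → ℝ) : Prop where
  start : p 0 = y + a • v
  dir : u 0 = v
  zero : ∀ k ≤ n, h s (p k) = 0
  unit : ∀ k ≤ n, ‖u k‖ = 1
  move : ∀ k < n, p (k + 1) = p k + τ k • u k
  grad : ∀ k < n, gradient (h s) (p (k + 1)) ≠ 0
  trans : ∀ k < n, inner ℝ (u k) (gradient (h s) (p (k + 1))) ≠ 0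
  refl : ∀ k < n, u (k + 1) = u k - (2 * inner ℝ (u k) (gradient (h s) (p (k + 1))) /
    ‖gradient (h s) (p (k + 1))‖ ^ 2) • gradient (h s) (p (k + 1))
  ret : p n = γ (p 0)
  non1 : u (n - 1) ≠ γ (u 0)
  non2 : u (n - 1) ≠ -γ (u 0)
  sep : ∃ c : S, (∀ k, 0 < k → k < n → ∀ᶠ ε in 𝓝 (0 : ℝ), h (s + ε • c) (p k) = h s (p k) ∧
      gradient (h (s + ε • c)) (p k) = gradient (h s) (p k)) ∧
    ∃ δ : ℝ, δ ≠ 0 ∧ HasDerivAt (fun ε : ℝ => h (s + ε • c) (p 0)) δ 0

/-- The first `J` coordinates of `t` are replaced by those of `s`. -/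
def repl (J : ℕ) (t : ℕ → I) (s : Fin J → I) : ℕ → I :=
  fun j => if h : j < J then s ⟨j, h⟩ else t j

/-- The polynomial of degree at most `D` in each variable with the coefficients `c`. -/
noncomputable def pol {d D : ℕ} (c : (Fin d → Fin (D + 1)) → ℝ) (x : EuclideanSpace ℝ (Fin d)) : ℝ :=
  ∑ α, c α * ∏ i, x i ^ (α i : ℕ)

/-! ### The lemmas -/

/-- IVP-CLOSED. The set of loops is closed. Copy the proof of `Pool.Agent.Y306.IV.prove_closed`
(`Pool/Agent/Y306/IV/Closed.lean`): add the vector `b`, which ranges over the compact ball of radius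
`M`, to the data space `Y`; the conditions `ret`, `nonret`, `bbd`, `sep0`, `sep1`, `sep2` are closed
by continuity of `γ`, `ev`, `dev`. -/
def S_CLOSED2 : Prop :=
  ∀ (E : Type) [NormedAddCommGroup E] [InnerProductSpace ℝ E] [FiniteDimensional ℝ E]
    (S : Type) [NormedAddCommGroup S] [NormedSpace ℝ S] [FiniteDimensional ℝ S]
    (T : Type) [TopologicalSpace T] (F : T → E → ℝ) (G : T → E → E) (ev : S → E → ℝ)
    (dev : S → E → E),
    Continuous (fun z : T × E => F z.1 z.2) → Continuous (fun z : T × E => G z.1 z.2) →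
    Continuous (fun z : S × E => ev z.1 z.2) → Continuous (fun z : S × E => dev z.1 z.2) →
    ∀ (γ : E ≃ₗᵢ[ℝ] E) (e : E) (n : ℕ) (c M : ℝ), 0 < c → IsClosed (LoopSet2 F G γ ev dev e n c M)

/-- IVP-LOOP. A trajectory which comes to the image of its first bounce point is a loop. Copy
`Pool.Agent.Y322.IV.loop_of_traj` (`Pool/Agent/Y322/IV/Cover.lean`); in addition `‖b‖ ≤ m + 1` and
`1 / (m + 1) ≤ ev b (p 0)` for all large `m`. -/
def S_LOOP2 : Prop :=
  ∀ (E : Type) [NormedAddCommGroup E] [InnerProductSpace ℝ E] [FiniteDimensional ℝ E]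
    (S : Type) [NormedAddCommGroup S] (h : E → ℝ) (γ : E ≃ₗᵢ[ℝ] E) (ev : S → E → ℝ)
    (dev : S → E → E) (n : ℕ) (p u : ℕ → E), 1 ≤ n → Traj h n p u → p n = γ (p 0) →
    u (n - 1) ≠ -γ (u 0) → ∀ b : S, 0 < ev b (p 0) →
    (∀ k, 0 < k → k < n → ev b (p k) = 0 ∧ dev b (p k) = 0) →
    ∀ e : E, ‖e‖ = 1 → 0 < inner ℝ e (u 0) →
    ∃ m : ℕ, (p 0, u 0) ∈ OnLines h e
      (Lines2 h γ ev dev e n (1 / ((m : ℝ) + 1)) ((m : ℝ) + 1))

/-- IVP-SYM. Model: `Pool.Agent.Y515.IV.prove_retr` (`Pool/Agent/Y515/IV/Retr.lean`), the case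
`γ = 1`. First `gradient h (γ x) = γ (gradient h x)`. By induction on `k ≤ n`: `p (n - k) = γ (p k)`
and, for `k < n`, `u (n - 1 - k) = -γ (u k)`. Step: the segment from `p (n - k - 1)` to
`p (n - k) = γ (p k)` is the image under `γ` of a segment which starts at `p k` with direction `u k`,
ends at a zero of `h` and has `h < 0` inside (as `h ∘ γ = h`), so it ends at `p (k + 1)`
(`Retr.chord`); the velocities before the reflection at `p (n - k - 1) = γ (p (k + 1))` follow since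
the reflection is an involution that commutes with `γ`. For `n = 2 r` take `k = r` and `k = r - 1`, for
`n = 2 r + 1` take `k = r` and `k = r + 1`. -/
def S_SYM : Prop :=
  ∀ (E : Type) [NormedAddCommGroup E] [InnerProductSpace ℝ E] [FiniteDimensional ℝ E]
    (h : E → ℝ) (γ : E ≃ₗᵢ[ℝ] E) (n : ℕ) (p u : ℕ → E), Differentiable ℝ h →
    (∀ x, h (γ x) = h x) → 1 ≤ n → Traj h n p u → p n = γ (p 0) → u (n - 1) = -γ (u 0) →
    (∃ r : ℕ, 1 ≤ r ∧ n = 2 * r ∧ γ (p r) = p r ∧ u r = -γ (u (r - 1))) ∨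
    (∃ r : ℕ, n = 2 * r + 1 ∧ p (r + 1) = γ (p r) ∧ γ (p (r + 1)) = p r ∧ γ (u r) = -u r)

/-- IVP-EVEN. Let `V = {x | γ x = x}`, a proper subspace (`γ ≠ 1`). For `q ∈ V` one has
`γ (gradient h q) = gradient h (γ q) = gradient h q`, so `gradient h q ∈ V`. Let
`A = {x ∈ V | h x = 0, gradient h x ≠ 0}`, as a subset of the space `V`: the derivative of `h` on `V` at
the points of `A` is not zero, so `A` is null for `μH[dim V]` on `V`, in fact `μH[s] A = 0` for
`s > dim V - 1` (for instance: `A` is covered by countably many Lipschitz images of hyperplanes of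
`V`, see `null_zero`, `null_graph`, `null_of_dim` in `Pool/Agent/Y322/IV/Perp.lean`). The set of the
statement is covered by the images of `A × (ℝ ∙ e)ᗮ` under the `C¹` maps
`(x, w) ↦ (x, ‖e + w‖⁻¹ • (e + w))`, `e` one of the `2 d` vectors `dirs E i` (`exists_dir` in
`Pool/Agent/Y322/IV/Cover.lean`; `null_c1` in `Pool/Agent/Y322/IV/Lip.lean`). Here `dim V ≤ d - 1` and
`dim V + (d - 1) ≤ 2 d - 2`; if `dim V < d - 1` everything is null by dimension (`null_of_dim`), if
`dim V = d - 1` use that `μH[2 d - 2]` on `V × (ℝ ∙ e)ᗮ` is an additive Haar measure, hence a multiple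
of a product measure, and that `A` is null in `V`. -/
def S_EVEN : Prop :=
  ∀ (E : Type) [NormedAddCommGroup E] [InnerProductSpace ℝ E] [FiniteDimensional ℝ E]
    [MeasurableSpace E] [BorelSpace E] (d : ℕ), 2 ≤ d → Module.finrank ℝ E = d →
    ∀ (h : E → ℝ) (γ : E ≃ₗᵢ[ℝ] E), ContDiff ℝ 2 h → (∀ x, h (γ x) = h x) → γ ≠ 1 →
    μH[((2 * d - 2 : ℕ) : ℝ)] {z : E × E | γ z.1 = z.1 ∧ h z.1 = 0 ∧ ‖z.2‖ = 1 ∧
      inner ℝ z.2 (gradient h z.1) < 0} = 0

/-- IVP-ODD. All these phase points are on lines `(y, w)` with `γ (e + w) = -(e + w)` and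
`γ (y + a • (e + w)) = y + a • (e + w)` for some real `a`, `e = dirs E i` (see `OnLines`,
`null_OnLines`, `exists_dir` in `Pool/Agent/Y322/IV/Cover.lean`; the parametrisation of lines is in the
proof of `loop_of_traj`). So it is enough that this set of lines is null in
`(ℝ ∙ e)ᗮ × (ℝ ∙ e)ᗮ` for `μH[2 d - 2]`, an additive Haar measure (`haar_lines` in
`Pool/Agent/Y322/IV/Slices.lean`), hence a multiple of the product measure. If `γ ≠ -1` on `E`, the
set of the `w` with `γ (e + w) = -(e + w)` is an affine subspace of `(ℝ ∙ e)ᗮ` which is not the whole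
space (otherwise the subspace `{x | γ x = -x}` would contain `e` and `(ℝ ∙ e)ᗮ`), so it is null. If
`γ = -1` then `y + a • (e + w) = 0`; the inner product with `e` gives `a = 0`, so `y = 0`. -/
def S_ODD : Prop :=
  ∀ (E : Type) [NormedAddCommGroup E] [InnerProductSpace ℝ E] [FiniteDimensional ℝ E]
    [MeasurableSpace E] [BorelSpace E] (d : ℕ), 2 ≤ d → Module.finrank ℝ E = d →
    ∀ (h : E → ℝ) (γ : E ≃ₗᵢ[ℝ] E), ContDiff ℝ 2 h →
    μH[((2 * d - 2 : ℕ) : ℝ)] {z : E × E | h z.1 = 0 ∧ ‖z.2‖ = 1 ∧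
      inner ℝ z.2 (gradient h z.1) < 0 ∧ γ z.2 = -z.2 ∧
      ∃ τ : ℝ, γ (z.1 + τ • z.2) = z.1 + τ • z.2} = 0

/-- IVP-RESAMP. As `Pool.Agent.Y165.IV.map_update` and `fub` (`Pool/Agent/Y165/IV/Fub.lean`), with
`J` coordinates at once: the image of `infinitePi.prod (volume : Measure (Fin J → I))` under
`(t, s) ↦ repl J t s` is `infinitePi`. The subset of `Fin J → I` of the `s` with `repl J t s ∈ K` is
null because its image in `Fin J → ℝ` is (the volume of `Fin J → I` is the product of the volumes of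
`I`, and the coordinates embed it in the product of the restrictions of Lebesgue measure to
`[0,1]`). -/
def S_RESAMP : Prop :=
  ∀ (J : ℕ) (K : Set (ℕ → I)), MeasurableSet K →
    (∀ t : ℕ → I, volume {x : Fin J → ℝ | ∃ s : Fin J → I, (∀ i, (s i : ℝ) = x i) ∧
      repl J t s ∈ K} = 0) →
    Measure.infinitePi (fun _ : ℕ => (volume : Measure I)) K = 0

/-- IVP-SERIES. The perturbed function for locally uniformly summable `g j` (`pert` is defined in
`Pool/Agent/Y322/IV/Def.lean`). Smoothness near a ball of radius `R`: multiply all the `g j` by one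
smooth function with compact support which is one on the ball (`ContDiffBump`) and use
`contDiff_tsum`, or use a local version. Joint continuity: uniform convergence on
`(ℕ → I) × closedBall 0 R`, for the derivatives `fderiv ℝ (g j)` as well (`gradient` of the sum is the
sum of the gradients). Compare `Pool/Agent/Y977/IV/Pert.lean`. The last formula is a finite change of
an absolutely convergent series. -/
def S_SERIES : Prop :=
  ∀ (E : Type) [NormedAddCommGroup E] [InnerProductSpace ℝ E] [FiniteDimensional ℝ E]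
    (g : ℕ → E → ℝ), (∀ j, ContDiff ℝ 2 (g j)) →
    (∀ R : ℝ, ∃ v : ℕ → ℝ, Summable v ∧ ∀ j : ℕ, ∀ k ≤ 2, ∀ x, ‖x‖ ≤ R →
      ‖iteratedFDeriv ℝ k (g j) x‖ ≤ v j) →
    ∀ f : E → ℝ, ContDiff ℝ 2 f →
      (∀ t : ℕ → I, ContDiff ℝ 2 (pert f g t)) ∧
      Continuous (fun z : (ℕ → I) × E => pert f g z.1 z.2) ∧
      Continuous (fun z : (ℕ → I) × E => gradient (pert f g z.1) z.2) ∧
      ∀ (J : ℕ) (t : ℕ → I) (s : Fin J → I) (x : E),
        pert f g (repl J t s) x = pert f g t x + ∑ i : Fin J, ((s i : ℝ) - (t i : ℝ)) * g i x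

/-- IVP-POLY. Let `B` be the set of all `γ a`, `γ ∈ Γ`, `a ∈ A`; it has at most
`Nat.card Γ * (N - 1)` elements, is mapped to itself by every `γ ∈ Γ` and does not contain `q`. The
polynomial `∏ b ∈ B, ∑ i, (x i - b i) ^ 2 = ∏ b ∈ B, ‖x - b‖ ^ 2` has degree at most
`2 * B.card ≤ D` in each variable (`MvPolynomial.degreeOf_prod_le`), is invariant, positive at `q`, and
vanishes at the points of `B` together with its gradient. Its coefficients give `c`. -/
def S_POLY : Prop :=
  ∀ (d D N : ℕ) (Γ : Subgroup (EuclideanSpace ℝ (Fin d) ≃ₗᵢ[ℝ] EuclideanSpace ℝ (Fin d)))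
    [Finite Γ], 2 * Nat.card Γ * (N - 1) ≤ D →
    ∀ (A : Finset (EuclideanSpace ℝ (Fin d))) (q : EuclideanSpace ℝ (Fin d)), A.card ≤ N - 1 →
      (∀ γ ∈ Γ, γ q ∉ A) →
      ∃ c : (Fin d → Fin (D + 1)) → ℝ, (∀ γ ∈ Γ, ∀ x, pol c (γ x) = pol c x) ∧ 0 < pol c q ∧
        ∀ a ∈ A, pol c a = 0 ∧ gradient (pol c) a = 0

/-- IVP-PROJ. Implicit function theorem: near `z₀` the level set of `Θ` is the image of a
neighbourhood of `0` in `Θ'.ker` under a map which is strictly differentiable at `0`, hence Lipschitz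
near `0` (`HasStrictFDerivAt.to_implicitFunction`, `implicitFunction_apply_image`,
`HasStrictFDerivAt.exists_lipschitzOnWith`), and `finrank Θ'.ker = finrank S - 1`, so that its
projection to `S` is null (`dimH`, or `null_c1` and `null_of_dim` in `Pool/Agent/Y322/IV`). -/
def S_PROJ : Prop :=
  ∀ (S W Y : Type) [NormedAddCommGroup S] [NormedSpace ℝ S] [FiniteDimensional ℝ S]
    [NormedAddCommGroup W] [NormedSpace ℝ W] [FiniteDimensional ℝ W]
    [NormedAddCommGroup Y] [NormedSpace ℝ Y] [FiniteDimensional ℝ Y]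
    [MeasurableSpace S] [BorelSpace S] (μ : Measure S) [μ.IsAddHaarMeasure]
    (Θ : S × W → Y) (Θ' : S × W →L[ℝ] Y) (z₀ : S × W), HasStrictFDerivAt Θ Θ' z₀ →
    Θ'.range = ⊤ → Module.finrank ℝ Y = Module.finrank ℝ W + 1 →
    ∃ N ∈ 𝓝 z₀, μ (Prod.fst '' {z ∈ N | Θ z = Θ z₀}) = 0

/-- IVP-CORE (helper263 does this one). -/
def S_CORE : Prop :=
  ∀ (E : Type) [NormedAddCommGroup E] [InnerProductSpace ℝ E] [FiniteDimensional ℝ E]
    (S : Type) [NormedAddCommGroup S] [NormedSpace ℝ S] [FiniteDimensional ℝ S]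
    [MeasurableSpace S] [BorelSpace S] (μ : Measure S) [μ.IsAddHaarMeasure]
    (h : S → E → ℝ), ContDiff ℝ 2 (fun z : S × E => h z.1 z.2) →
    ∀ (γ : E ≃ₗᵢ[ℝ] E) (y v : E) (n : ℕ), 1 ≤ n → ‖v‖ = 1 →
      μ {s | ∃ (a : ℝ) (p u : ℕ → E) (τ : ℕ → ℝ), GoodPath h s γ y v n a p u τ} = 0

end Q263.IV
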