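import Pool.Agent.Q263.IV.Main

/-!
# Ivrii's conjecture for almost every member of a family: the two theorems
-/

set_option autoImplicit false

open Set MeasureTheory Function Filter Topology
open scoped unitInterval ContDiff

namespace Q263.IV

open Pool.Agent.Y322.IV

theorem swap_null {T V : Type} [MeasurableSpace T] [MeasurableSpace V] (μ : Measure T) [SFinite μ]
    (ν : Measure V) [SFinite ν] {K : Set (T × V)} (hK : MeasurableSet K)
    (h : ∀ v, μ {t | (t, v) ∈ K} = 0) : ∀ᵐ t ∂μ, ν {v | (t, v) ∈ K} = 0 := by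
  have h1 : (μ.prod ν) K = 0 := by
    rw [Measure.prod_apply_symm hK]
    have : ∀ v, μ ((fun t => (t, v)) ⁻¹' K) = 0 := h
    simp [this]
  exact (Measure.measure_prod_null hK).1 h1

variable {E : Type} [NormedAddCommGroup E] [InnerProductSpace ℝ E] [FiniteDimensional ℝ E]

section fin
variable [MeasurableSpace E] [BorelSpace E]
variable {S : Type} [NormedAddCommGroup S] [NormedSpace ℝ S] [FiniteDimensional ℝ S]
  [MeasurableSpace S] [BorelSpace S]

/-- Almost every member of a finite dimensional family: the lines with loops. -/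
theorem ae_Lines2 (HC : S_CORE) (HK : S_CLOSED2) (μ : Measure S) [μ.IsAddHaarMeasure] {d : ℕ}
    (hE : Module.finrank ℝ E = d) {f : E → ℝ} (hf : ContDiff ℝ 2 f) (ev : S →ₗ[ℝ] (E → ℝ))
    (hev : ∀ s, ContDiff ℝ 2 (ev s)) {γ : E ≃ₗᵢ[ℝ] E} (hγf : ∀ x, f (γ x) = f x)
    (hγ : ∀ s x, ev s (γ x) = ev s x) {e : E} (he : ‖e‖ = 1) {n : ℕ} (hn : 1 ≤ n) {c M : ℝ}
    (hc : 0 < c) : ∀ᵐ s ∂μ, μH[((2 * d - 2 : ℕ) : ℝ)]
      (Lines2 (fun x => f x + ev s x) γ (fun s => ev s) (fun s => gradient (ev s)) e n c M) = 0 := by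
  have hH := haar_lines hE he
  have h2 := ev_contDiff ev hev
  have h3 : ContDiff ℝ 2 (fun z : S × E => f z.2 + ev z.1 z.2) := (hf.comp contDiff_snd).add h2
  have h4 : Continuous fun z : S × E => gradient (fun x => f x + ev z.1 x) z.2 :=
    (contDiff_grad2 (h := fun s x => f x + ev s x) h3).continuous
  have h5 : Continuous fun z : S × E => gradient (ev z.1) z.2 :=
    (contDiff_grad2 (h := fun s x => ev s x) h2).continuous
  have hcl := HK E S S (fun s x => f x + ev s x) (fun s => gradient (fun x => f x + ev s x))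
    (fun s => ev s) (fun s => gradient (ev s)) h3.continuous h4 h2.continuous h5 γ e n c M hc
  have hm := hcl.measurableSet
  have hsf : SFinite (μH[((2 * d - 2 : ℕ) : ℝ)] : Measure ((ℝ ∙ e)ᗮ × (ℝ ∙ e)ᗮ)) :=
    inferInstance
  have hfin := swap_null μ (μH[((2 * d - 2 : ℕ) : ℝ)] : Measure ((ℝ ∙ e)ᗮ × (ℝ ∙ e)ᗮ)) hm
    (fun z => by
      have h9 := null_slice HC μ hf ev hev hγf hγ he hn (M := M) hc z
      exact h9)
  filter_upwards [hfin] with s hs
  exact hs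

/-- Almost every member of a finite dimensional family which separates `1`-jets. -/
theorem fin_null (HC : S_CORE) (HK : S_CLOSED2) (HL : S_LOOP2) (HS : S_SYM) (HE : S_EVEN)
    (HO : S_ODD) (μ : Measure S) [μ.IsAddHaarMeasure] {d : ℕ} (hd : 2 ≤ d)
    (hE : Module.finrank ℝ E = d) (Γ : Subgroup (E ≃ₗᵢ[ℝ] E)) [Finite Γ] {f : E → ℝ}
    (hf : ContDiff ℝ 2 f) (hfΓ : Inv Γ f) (ev : S →ₗ[ℝ] (E → ℝ)) (hev : ∀ s, ContDiff ℝ 2 (ev s))
    (hevΓ : ∀ s, Inv Γ (ev s)) (N : ℕ)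
    (hsep : ∀ (A : Finset E) (q : E), A.card ≤ N - 1 → (∀ γ ∈ Γ, γ q ∉ A) →
      ∃ b : S, 0 < ev b q ∧ ∀ a ∈ A, ev b a = 0 ∧ gradient (ev b) a = 0) :
    ∀ᵐ s ∂μ, μH[((2 * d - 2 : ℕ) : ℝ)] (TwiceOrb Γ N fun x => f x + ev s x) = 0 := by
  have hs : (0 : ℝ) ≤ ((2 * d - 2 : ℕ) : ℝ) := Nat.cast_nonneg _
  have hall : ∀ᵐ s ∂μ, ∀ z : Γ × ℕ × ℕ × (Fin (Module.finrank ℝ E) × Bool), 1 ≤ z.2.1 →
      μH[((2 * d - 2 : ℕ) : ℝ)] (Lines2 (fun x => f x + ev s x) z.1.1 (fun s => ev s)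
        (fun s => gradient (ev s)) (dirs E z.2.2.2) z.2.1 (1 / ((z.2.2.1 : ℝ) + 1))
        ((z.2.2.1 : ℝ) + 1)) = 0 := by
    rw [ae_all_iff]
    intro z
    by_cases hz : 1 ≤ z.2.1
    · filter_upwards [ae_Lines2 HC HK μ hE hf ev hev (hfΓ z.1.1 z.1.2)
        (fun s => hevΓ s z.1.1 z.1.2) (dirs_norm z.2.2.2) hz (c := 1 / ((z.2.2.1 : ℝ) + 1))
        (M := (z.2.2.1 : ℝ) + 1) (by positivity)] with s hs _
      exact hs
    · exact Eventually.of_forall fun s h => absurd h hz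
  filter_upwards [hall] with s hall
  have hh : ContDiff ℝ 2 (fun x => f x + ev s x) := hf.add (hev s)
  have hinv : Inv Γ (fun x => f x + ev s x) := fun γ hγ x => by
    simp only
    rw [hfΓ γ hγ, hevΓ s γ hγ]
  refine null_TwiceOrb hh hs Γ N (null_ReturnOrb HL HS HE HO hh hd hE Γ hinv N (S := fun _ => S)
    (fun _ s => ev s) (fun _ s => gradient (ev s)) ?_ ?_)
  · intro A q hA hq
    obtain ⟨b, hb⟩ := hsep A q hA hq
    exact ⟨0, b, hb⟩
  · intro γ hγ _ n m i hn _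
    exact hall (⟨γ, hγ⟩, n, m, i) hn

end fin

/-! ### Sequences of functions -/

section seq

/-- The combinations of the first `J` functions. -/
noncomputable def comb (g : ℕ → E → ℝ) (J : ℕ) : (Fin J → ℝ) →ₗ[ℝ] (E → ℝ) where
  toFun b x := ∑ i, b i * g i x
  map_add' b c := by
    funext x
    simp [add_mul, Finset.sum_add_distrib]
  map_smul' r b := by
    funext x
    simp [Finset.mul_sum, mul_assoc]

omit [FiniteDimensional ℝ E] in
theorem comb_contDiff {g : ℕ → E → ℝ} (hg : ∀ j, ContDiff ℝ 2 (g j)) (J : ℕ) (b : Fin J → ℝ) :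
    ContDiff ℝ 2 (comb g J b) := by
  change ContDiff ℝ 2 fun x => ∑ i, b i * g i x
  exact ContDiff.sum fun i _ => contDiff_const.mul (hg i)

omit [FiniteDimensional ℝ E] in
theorem comb_inv {g : ℕ → E → ℝ} {γ : E ≃ₗᵢ[ℝ] E} (hg : ∀ j x, g j (γ x) = g j x) (J : ℕ)
    (b : Fin J → ℝ) (x : E) : comb g J b (γ x) = comb g J b x := by
  change (∑ i, b i * g i (γ x)) = ∑ i, b i * g i x
  simp [hg]

variable [MeasurableSpace E] [BorelSpace E]

/-- Almost every member of an infinite dimensional family: the lines with loops. -/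
theorem ae_LinesSeq (HC : S_CORE) (HK : S_CLOSED2) (HR : S_RESAMP) (HSe : S_SERIES) {d : ℕ}
    (hE : Module.finrank ℝ E = d) {f : E → ℝ} (hf : ContDiff ℝ 2 f) {g : ℕ → E → ℝ}
    (hg : ∀ j, ContDiff ℝ 2 (g j))
    (hsum : ∀ R : ℝ, ∃ v : ℕ → ℝ, Summable v ∧ ∀ j : ℕ, ∀ k ≤ 2, ∀ x, ‖x‖ ≤ R →
      ‖iteratedFDeriv ℝ k (g j) x‖ ≤ v j) {γ : E ≃ₗᵢ[ℝ] E} (hγf : ∀ x, f (γ x) = f x)
    (hγ : ∀ j x, g j (γ x) = g j x) (J : ℕ) {e : E} (he : ‖e‖ = 1) {n : ℕ} (hn : 1 ≤ n) {c M : ℝ}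
    (hc : 0 < c) : ∀ᵐ t ∂(Measure.infinitePi (fun _ : ℕ => (volume : Measure I))),
      μH[((2 * d - 2 : ℕ) : ℝ)] (Lines2 (pert f g t) γ (fun b => comb g J b)
        (fun b => gradient (comb g J b)) e n c M) = 0 := by
  have hH := haar_lines hE he
  obtain ⟨hS1, hS2, hS3, hS4⟩ := HSe E g hg hsum f hf
  have h2 := ev_contDiff (comb g J) (comb_contDiff hg J)
  have h5 : Continuous fun z : (Fin J → ℝ) × E => gradient (comb g J z.1) z.2 :=
    (contDiff_grad2 (h := fun b x => comb g J b x) h2).continuous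
  have hcl := HK E (Fin J → ℝ) (ℕ → I) (fun t => pert f g t) (fun t => gradient (pert f g t))
    (fun b => comb g J b) (fun b => gradient (comb g J b)) hS2 hS3 h2.continuous h5 γ e n c M hc
  have hm := hcl.measurableSet
  have hsf : SFinite (μH[((2 * d - 2 : ℕ) : ℝ)] : Measure ((ℝ ∙ e)ᗮ × (ℝ ∙ e)ᗮ)) :=
    inferInstance
  have hall : ∀ z : (ℝ ∙ e)ᗮ × (ℝ ∙ e)ᗮ,
      Measure.infinitePi (fun _ : ℕ => (volume : Measure I)) {t | (t, z) ∈ LoopSet2
        (fun t => pert f g t) (fun t => gradient (pert f g t)) γ (fun b => comb g J b)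
        (fun b => gradient (comb g J b)) e n c M} = 0 := by
    intro z
    refine HR J _ ?_ ?_
    · have h1 : Continuous fun t : ℕ → I => (t, z) := by fun_prop
      exact (hcl.preimage h1).measurableSet
    · intro t
      set base : E → ℝ := fun x => pert f g t x + comb g J (fun i => -(t i : ℝ)) x with hbase
      have hb : ContDiff ℝ 2 base := (hS1 t).add (comb_contDiff hg J _)
      have hbγ : ∀ x, base (γ x) = base x := by
        intro x
        simp only [hbase, comb_inv hγ, pert, hγf, hγ]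
      have h9 := null_slice HC (volume : Measure (Fin J → ℝ)) hb (comb g J)
        (comb_contDiff hg J) hbγ (comb_inv hγ J) he hn (M := M) hc z
      refine measure_mono_null ?_ h9
      rintro x ⟨s, hs, a, p, u, τ, b, H⟩
      refine ⟨a, p, u, τ, b, ?_⟩
      have h3 : pert f g (repl J t s) = fun x' => base x' + comb g J x x' := by
        funext x'
        rw [hS4]
        simp only [hbase, comb, LinearMap.coe_mk, AddHom.coe_mk, add_assoc]
        rw [← Finset.sum_add_distrib]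
        congr 1
        refine Finset.sum_congr rfl fun i _ => ?_
        rw [hs i]
        ring
      simp only [h3] at H
      exact H
  have hfin := swap_null (Measure.infinitePi (fun _ : ℕ => (volume : Measure I)))
    (μH[((2 * d - 2 : ℕ) : ℝ)] : Measure ((ℝ ∙ e)ᗮ × (ℝ ∙ e)ᗮ)) hm hall
  filter_upwards [hfin] with s hs
  exact hs

/-- Almost every member of an infinite dimensional family which separates `1`-jets. -/
theorem seq_null (HC : S_CORE) (HK : S_CLOSED2) (HR : S_RESAMP) (HSe : S_SERIES) (HL : S_LOOP2)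
    (HS : S_SYM) (HE : S_EVEN) (HO : S_ODD) {d : ℕ} (hd : 2 ≤ d)
    (hE : Module.finrank ℝ E = d) (Γ : Subgroup (E ≃ₗᵢ[ℝ] E)) [Finite Γ] {f : E → ℝ}
    (hf : ContDiff ℝ 2 f) (hfΓ : Inv Γ f) {g : ℕ → E → ℝ} (hg : ∀ j, ContDiff ℝ 2 (g j))
    (hsum : ∀ R : ℝ, ∃ v : ℕ → ℝ, Summable v ∧ ∀ j : ℕ, ∀ k ≤ 2, ∀ x, ‖x‖ ≤ R →
      ‖iteratedFDeriv ℝ k (g j) x‖ ≤ v j) (hgΓ : ∀ j, Inv Γ (g j))
    (hsep : ∀ (A : Finset E) (q : E), (∀ γ ∈ Γ, γ q ∉ A) →
      ∃ (J : ℕ) (b : Fin J → ℝ), 0 < comb g J b q ∧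
        ∀ a ∈ A, comb g J b a = 0 ∧ gradient (comb g J b) a = 0) :
    ∀ᵐ t ∂(Measure.infinitePi (fun _ : ℕ => (volume : Measure I))), ∀ N : ℕ,
      μH[((2 * d - 2 : ℕ) : ℝ)] (TwiceOrb Γ N (pert f g t)) = 0 := by
  have hs : (0 : ℝ) ≤ ((2 * d - 2 : ℕ) : ℝ) := Nat.cast_nonneg _
  have hall : ∀ᵐ t ∂(Measure.infinitePi (fun _ : ℕ => (volume : Measure I))),
      ∀ z : Γ × ℕ × ℕ × ℕ × (Fin (Module.finrank ℝ E) × Bool), 1 ≤ z.2.2.1 →
      μH[((2 * d - 2 : ℕ) : ℝ)] (Lines2 (pert f g t) z.1.1 (fun b => comb g z.2.1 b)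
        (fun b => gradient (comb g z.2.1 b)) (dirs E z.2.2.2.2) z.2.2.1 (1 / ((z.2.2.2.1 : ℝ) + 1))
        ((z.2.2.2.1 : ℝ) + 1)) = 0 := by
    rw [ae_all_iff]
    intro z
    by_cases hz : 1 ≤ z.2.2.1
    · filter_upwards [ae_LinesSeq HC HK HR HSe hE hf hg hsum (hfΓ z.1.1 z.1.2)
        (fun j => hgΓ j z.1.1 z.1.2) z.2.1 (dirs_norm z.2.2.2.2) hz
        (c := 1 / ((z.2.2.2.1 : ℝ) + 1)) (M := (z.2.2.2.1 : ℝ) + 1) (by positivity)] with s hs _
      exact hs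
    · exact Eventually.of_forall fun s h => absurd h hz
  filter_upwards [hall] with t hall
  intro N
  have hh : ContDiff ℝ 2 (pert f g t) := (HSe E g hg hsum f hf).1 t
  have hinv : Inv Γ (pert f g t) := fun γ hγ x => by
    simp only [pert, hfΓ γ hγ, hgΓ _ γ hγ]
  refine null_TwiceOrb hh hs Γ N (null_ReturnOrb HL HS HE HO hh hd hE Γ hinv N
    (S := fun J => Fin J → ℝ) (fun J b => comb g J b) (fun J b => gradient (comb g J b)) ?_ ?_)
  · intro A q _ hq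
    obtain ⟨J, b, hb⟩ := hsep A q hq
    exact ⟨J, b, hb⟩
  · intro γ hγ J n m i hn _
    exact hall (⟨γ, hγ⟩, J, n, m, i) hn

end seq

end Q263.IV
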