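import Pool.Agent.Q263.IV.Pol
import Pool.Agent.Q144.IV.Loop
import Pool.Agent.Q144.IV.Resamp
import Pool.Agent.Q144.IV.Poly
import Pool.Agent.Q144.IV.Proj
import Pool.Agent.Q38.IV.Closed2
import Pool.Agent.Q65.IV.Sym
import Pool.Agent.Q65.IV.Even
import Pool.Agent.Q26.IV.Odd
import Pool.Agent.Q26.IV.Series

/-!
# Ivrii's conjecture for almost every member of a family: final statements

Project IVP of helper263, with the modules of helpers 26 (`Odd`, `Series`), 38 (`Closed2`),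
65 (`Sym`, `Even`), 144 (`Loop`, `Resamp`, `Poly`, `Proj`).
-/

set_option autoImplicit false

open Set MeasureTheory Function Filter
open scoped unitInterval ContDiff

namespace Q263.IV

open Pool.Agent.Y322.IV

/-- Almost every trajectory in the table `{h < 0}` does not meet, within `N` bounces, the `Γ`-orbit of
one of its former bounce points, and almost no phase point is periodic with a period at most `N`. -/
def Good {E : Type} [NormedAddCommGroup E] [InnerProductSpace ℝ E] [FiniteDimensional ℝ E]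
    [MeasurableSpace E] [BorelSpace E] (d : ℕ) (Γ : Subgroup (E ≃ₗᵢ[ℝ] E)) (N : ℕ)
    (h : E → ℝ) : Prop :=
  μH[((2 * d - 2 : ℕ) : ℝ)] (TwiceOrb Γ N h) = 0 ∧ μH[((2 * d - 2 : ℕ) : ℝ)] (PerN N h) = 0

/-- The number of elements of `Γ`. -/
noncomputable def order {E : Type} [NormedAddCommGroup E] [InnerProductSpace ℝ E]
    (Γ : Subgroup (E ≃ₗᵢ[ℝ] E)) : ℕ := Nat.card Γ

/-- `Γ` is finite. -/
def IsFin {E : Type} [NormedAddCommGroup E] [InnerProductSpace ℝ E]
    (Γ : Subgroup (E ≃ₗᵢ[ℝ] E)) : Prop := Finite Γ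

/-- The groups of linear isometries of `ℝ^d`. -/
abbrev Grp (d : ℕ) : Type :=
  Subgroup (EuclideanSpace ℝ (Fin d) ≃ₗᵢ[ℝ] EuclideanSpace ℝ (Fin d))

/-- For every `Γ`-invariant `f` of class `C²` and almost every `s` the table `{f + F s < 0}` is good
for all `N ∈ A`. -/
def AeGood {E : Type} [NormedAddCommGroup E] [InnerProductSpace ℝ E] [FiniteDimensional ℝ E]
    [MeasurableSpace E] [BorelSpace E] (d : ℕ) (Γ : Subgroup (E ≃ₗᵢ[ℝ] E)) (A : Set ℕ)
    {S : Type} [MeasurableSpace S] (μ : Measure S) (F : S → E → ℝ) : Prop :=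
  ∀ f : E → ℝ, ContDiff ℝ 2 f → Inv Γ f → ∀ᵐ s ∂μ, ∀ N ∈ A, Good d Γ N fun x => f x + F s x

/-- The functions `F b` separate the points `q` from the `1`-jets at `K` other points: for every
set `A` of at most `K` points off the `Γ`-orbit of `q` one of them is positive at `q` and vanishes
together with its gradient on `A`. -/
def Separates {E : Type} [NormedAddCommGroup E] [InnerProductSpace ℝ E] [CompleteSpace E]
    (Γ : Subgroup (E ≃ₗᵢ[ℝ] E)) (K : ℕ) {B : Type} (F : B → E → ℝ) : Prop :=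
  ∀ (A : Finset E) (q : E), A.card ≤ K → (∀ γ ∈ Γ, γ q ∉ A) →
    ∃ b : B, 0 < F b q ∧ ∀ a ∈ A, F b a = 0 ∧ gradient (F b) a = 0

/-- Almost every member of every finite dimensional family of `Γ`-invariant functions which
separates the points from the `1`-jets at less than `N` other points. -/
def FinFam (E : Type) [NormedAddCommGroup E] [InnerProductSpace ℝ E] [FiniteDimensional ℝ E]
    [MeasurableSpace E] [BorelSpace E] (d : ℕ) (Γ : Subgroup (E ≃ₗᵢ[ℝ] E)) : Prop :=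
  ∀ (S : Type) [NormedAddCommGroup S] [NormedSpace ℝ S] [FiniteDimensional ℝ S]
    [MeasurableSpace S] [BorelSpace S] (μ : Measure S) [μ.IsAddHaarMeasure]
    (ev : S →ₗ[ℝ] (E → ℝ)) (N : ℕ), (∀ s, ContDiff ℝ 2 (ev s)) → (∀ s, Inv Γ (ev s)) →
    Separates Γ (N - 1) (fun s => ev s) → AeGood d Γ (Iic N) μ ev

/-- Almost every member of every infinite dimensional family of `Γ`-invariant functions, given by a
locally uniformly `C²`-summable sequence, which separates the points from the `1`-jets at finitely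
many other points. -/
def SeqFam (E : Type) [NormedAddCommGroup E] [InnerProductSpace ℝ E] [FiniteDimensional ℝ E]
    [MeasurableSpace E] [BorelSpace E] (d : ℕ) (Γ : Subgroup (E ≃ₗᵢ[ℝ] E)) : Prop :=
  ∀ g : ℕ → E → ℝ, (∀ j, ContDiff ℝ 2 (g j)) → (∀ j, Inv Γ (g j)) →
    (∀ R : ℝ, ∃ v : ℕ → ℝ, Summable v ∧ ∀ j : ℕ, ∀ k ≤ 2, ∀ x, ‖x‖ ≤ R →
      ‖iteratedFDeriv ℝ k (g j) x‖ ≤ v j) →
    (∀ K : ℕ, Separates Γ K fun (b : Σ J : ℕ, Fin J → ℝ) x => ∑ i, b.2 i * g i x) →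
    AeGood d Γ univ (Measure.infinitePi (fun _ : ℕ => (volume : Measure I)))
      fun t x => ∑' j, (t j : ℝ) * g j x

/-- Almost every `Γ`-invariant polynomial of degree at most `D` in each variable (`φ` is any linear
parametrization of the space of the coefficients of these polynomials). -/
def PolFam (d : ℕ) (Γ : Grp d) : Prop :=
  ∀ (S : Type) [NormedAddCommGroup S] [NormedSpace ℝ S] [FiniteDimensional ℝ S]
    [MeasurableSpace S] [BorelSpace S] (μ : Measure S) [μ.IsAddHaarMeasure]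
    (N D : ℕ) (φ : S →ₗ[ℝ] ((Fin d → Fin (D + 1)) → ℝ)), 2 * order Γ * (N - 1) ≤ D →
    (∀ c, Inv Γ (pol c) ↔ ∃ s, φ s = c) → AeGood d Γ (Iic N) μ fun s => pol (φ s)

/-- There are sequences of `Γ`-invariant polynomials with arbitrarily small coefficients such that
almost every perturbation by a sum of these polynomials is good. -/
def EntFam (d : ℕ) (Γ : Grp d) : Prop :=
  ∀ δ : ℕ → ℝ, (∀ j, 0 < δ j) →
    ∃ (D : ℕ → ℕ) (c : ∀ j, (Fin d → Fin (D j + 1)) → ℝ), (∀ j, Inv Γ (pol (c j))) ∧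
      (∀ j, ∑ α, |c j α| * ((j : ℝ) + 1) ^ (∑ i, (α i : ℕ)) ≤ δ j) ∧
      AeGood d Γ univ (Measure.infinitePi (fun _ : ℕ => (volume : Measure I)))
        fun t x => ∑' j, (t j : ℝ) * pol (c j) x

section
variable {E : Type} [NormedAddCommGroup E] [InnerProductSpace ℝ E] [FiniteDimensional ℝ E]
    [MeasurableSpace E] [BorelSpace E]

theorem good_of {d : ℕ} {Γ : Subgroup (E ≃ₗᵢ[ℝ] E)} {N : ℕ}
    {h : E → ℝ} (H : μH[((2 * d - 2 : ℕ) : ℝ)] (TwiceOrb Γ N h) = 0) : Good d Γ N h :=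
  ⟨H, measure_mono_null (PerN_subset Γ N h) H⟩

theorem good_mono {d : ℕ} {Γ : Subgroup (E ≃ₗᵢ[ℝ] E)} {N M : ℕ} (hM : M ≤ N)
    {h : E → ℝ} (H : μH[((2 * d - 2 : ℕ) : ℝ)] (TwiceOrb Γ N h) = 0) : Good d Γ M h := by
  refine good_of (measure_mono_null ?_ H)
  rintro x ⟨n, p, u, hn, hT⟩
  exact ⟨n, p, u, hn.trans hM, hT⟩

theorem finFam {d : ℕ} (hd : 2 ≤ d) (hE : Module.finrank ℝ E = d) (Γ : Subgroup (E ≃ₗᵢ[ℝ] E))
    [Finite Γ] : FinFam E d Γ := by
  intro S _ _ _ _ _ μ _ ev N h1 h2 h3 f hf hfΓ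
  filter_upwards [fin_null (core Q144.IV.proj) Pool.Agent.Q38.IV.closed2 Q144.IV.loop2
    Pool.Agent.Q65.IV.sym Pool.Agent.Q65.IV.even Q263.IV.odd μ hd hE Γ hf hfΓ ev h1 h2 N h3]
    with s hs M hM
  exact good_mono hM hs

theorem seqFam {d : ℕ} (hd : 2 ≤ d) (hE : Module.finrank ℝ E = d) (Γ : Subgroup (E ≃ₗᵢ[ℝ] E))
    [Finite Γ] : SeqFam E d Γ := by
  intro g hg1 hg2 hg3 hg4 f hf hfΓ
  filter_upwards [seq_null (core Q144.IV.proj) Pool.Agent.Q38.IV.closed2 Q144.IV.resamp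
    Q263.IV.series Q144.IV.loop2 Pool.Agent.Q65.IV.sym Pool.Agent.Q65.IV.even Q263.IV.odd hd hE Γ
    hf hfΓ hg1 hg3 hg2 fun A q hq => by
      obtain ⟨⟨J, b⟩, h1, h2⟩ := hg4 A.card A q le_rfl hq
      exact ⟨J, b, h1, h2⟩] with t ht N _
  exact good_of (ht N)

end

/-- Almost every `Γ`-invariant polynomial perturbation. -/
theorem polFam {d : ℕ} (hd : 2 ≤ d) (Γ : Grp d) [Finite Γ] :
    PolFam d Γ := by
  intro S _ _ _ _ _ μ _ N D φ hD hφ f hf hfΓ
  have h1 := finFam hd (by simp) Γ S μ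
    { toFun := fun s => pol (φ s)
      map_add' := fun s t => by
        funext x
        rw [map_add, pol_add, Pi.add_apply]
      map_smul' := fun r s => by
        funext x
        rw [map_smul, pol_smul]
        rfl } N (fun s => pol_contDiff _) (fun s => (hφ _).2 ⟨s, rfl⟩) (fun A q hA hq => by
        obtain ⟨c, hc1, hc2, hc3⟩ := Q144.IV.poly d D N Γ hD A q hA hq
        obtain ⟨s, rfl⟩ := (hφ c).1 hc1
        exact ⟨s, hc2, hc3⟩) f hf hfΓ
  exact h1

/-- Almost every `Γ`-invariant perturbation by an entire function in an arbitrarily small infinite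
dimensional box. -/
theorem entFam {d : ℕ} (hd : 2 ≤ d) (Γ : Grp d) [Finite Γ] :
    EntFam d Γ := by
  intro δ hδ
  obtain ⟨D, c, h1, h2, h3, h4⟩ := exists_seq Q144.IV.poly Γ δ hδ
  exact ⟨D, c, h1, h2, fun f hf hfΓ =>
    seqFam hd (by simp) Γ _ (fun j => pol_contDiff _) h1 h3 (fun K A q _ hq => by
      obtain ⟨J, b, h5, h6⟩ := h4 A q hq
      exact ⟨⟨J, b⟩, h5, h6⟩) f hf hfΓ⟩

/-- All four statements. -/
def AllFam (d : ℕ) (Γ : Grp d) : Prop :=
  PolFam d Γ ∧ FinFam (EuclideanSpace ℝ (Fin d)) d Γ ∧ SeqFam (EuclideanSpace ℝ (Fin d)) d Γ ∧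
    EntFam d Γ

theorem allFam {d : ℕ} (hd : 2 ≤ d) (Γ : Grp d) (hΓ : IsFin Γ) : AllFam d Γ :=
  have : Finite Γ := hΓ
  ⟨polFam hd Γ, finFam hd (by simp) Γ, seqFam hd (by simp) Γ, entFam hd Γ⟩

end Q263.IV
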