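import Pool.Agent.Q263.IV.Core

/-!
# Ivrii's conjecture for almost every member of a family: the main argument
-/

set_option autoImplicit false

open Set MeasureTheory Function Filter Topology
open scoped unitInterval ContDiff

namespace Q263.IV

open Pool.Agent.Y322.IV

section defs
variable {E : Type} [NormedAddCommGroup E] [InnerProductSpace ℝ E] [CompleteSpace E]

/-- The phase points whose trajectory meets, within `N` bounces, the orbit of a former bounce point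
under the group `Γ`. -/
def TwiceOrb (Γ : Subgroup (E ≃ₗᵢ[ℝ] E)) (N : ℕ) (h : E → ℝ) : Set (E × E) :=
  {x | ∃ (n : ℕ) (p u : ℕ → E), n ≤ N ∧ Traj h n p u ∧ p 0 = x.1 ∧ u 0 = x.2 ∧
    ∃ k < n, ∃ γ ∈ Γ, p n = γ (p k)}

/-- The phase points whose trajectory comes back to the orbit of its first bounce point. -/
def ReturnOrb (Γ : Subgroup (E ≃ₗᵢ[ℝ] E)) (N : ℕ) (h : E → ℝ) : Set (E × E) :=
  {x | ∃ (n : ℕ) (p u : ℕ → E), 1 ≤ n ∧ n ≤ N ∧ Traj h n p u ∧ p 0 = x.1 ∧ u 0 = x.2 ∧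
    ∃ γ ∈ Γ, p n = γ (p 0)}

/-- The periodic phase points of period at most `N`. -/
def PerN (N : ℕ) (f : E → ℝ) : Set (E × E) :=
  {q | f q.1 = 0 ∧ ‖q.2‖ = 1 ∧ inner ℝ q.2 (gradient f q.1) < 0 ∧
    ∃ n : ℕ, 1 ≤ n ∧ n ≤ N ∧ ∃ p u : ℕ → E,
      p 0 = q.1 ∧ u 0 = q.2 ∧ p n = q.1 ∧ u n = q.2 ∧
      ∀ k < n, f (p k) = 0 ∧ ‖u k‖ = 1 ∧ inner ℝ (u k) (gradient f (p k)) < 0 ∧
        (∃ t : ℝ, 0 < t ∧ p (k + 1) = p k + t • u k ∧
          ∀ s ∈ Ioo (0 : ℝ) t, f (p k + s • u k) < 0) ∧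
        u (k + 1) = u k - (2 * inner ℝ (u k) (gradient f (p (k + 1))) /
            ‖gradient f (p (k + 1))‖ ^ 2) • gradient f (p (k + 1))}

/-- `h` is invariant under the isometries of `Γ`. -/
def Inv (Γ : Subgroup (E ≃ₗᵢ[ℝ] E)) (h : E → ℝ) : Prop := ∀ γ ∈ Γ, ∀ x, h (γ x) = h x

theorem PerN_subset (Γ : Subgroup (E ≃ₗᵢ[ℝ] E)) (N : ℕ) (h : E → ℝ) :
    PerN N h ⊆ TwiceOrb Γ N h := by
  rintro ⟨q, v⟩ ⟨hq, hv, hqv, n, hn, hnN, p, u, hp0, hu0, hpn, hun, H⟩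
  simp only at hq hv hqv hp0 hu0 hpn hun
  have HT : Traj h n p u := by
    refine ⟨fun k hk => ?_, fun k hk => (H k hk).2.2.2⟩
    rcases eq_or_lt_of_le hk with rfl | hk
    · rw [hpn, hun]; exact ⟨hq, hv, hqv⟩
    · exact ⟨(H k hk).1, (H k hk).2.1, (H k hk).2.2.1⟩
  refine ⟨n, p, u, hnN, HT, hp0, hu0, 0, by omega, 1, Γ.one_mem, ?_⟩
  rw [hpn, hp0]
  rfl

end defs

variable {E : Type} [NormedAddCommGroup E] [InnerProductSpace ℝ E] [FiniteDimensional ℝ E]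

theorem TwiceOrb_subset (Γ : Subgroup (E ≃ₗᵢ[ℝ] E)) (N : ℕ) (h : E → ℝ) :
    TwiceOrb Γ N h ⊆ ⋃ k : ℕ, Back h (ReturnOrb Γ N h) k := by
  rintro ⟨q, v⟩ ⟨n, p, u, hN, H, hp, hu, k, hkn, γ, hγ, hpk⟩
  simp only at hp hu
  have hk : (p k, u k) ∈ ReturnOrb Γ N h := by
    obtain ⟨m, rfl⟩ : ∃ m, n = m + k := ⟨n - k, by omega⟩
    refine ⟨m, _, _, by omega, by omega, H.shift, ?_, ?_, γ, hγ, ?_⟩
    · simp
    · simp
    · simpa using hpk
  have := H.mem_back (A := ReturnOrb Γ N h) (k := k) k (by omega) le_rfl hk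
  rw [Nat.sub_self, hp, hu] at this
  exact mem_iUnion.2 ⟨k, this⟩

section meas
variable [MeasurableSpace E] [BorelSpace E]

theorem null_TwiceOrb {h : E → ℝ} (hh : ContDiff ℝ 2 h) {s : ℝ} (hs : 0 ≤ s)
    (Γ : Subgroup (E ≃ₗᵢ[ℝ] E)) (N : ℕ)
    (hR : μH[s] (ReturnOrb Γ N h) = 0) : μH[s] (TwiceOrb Γ N h) = 0 :=
  measure_mono_null (TwiceOrb_subset Γ N h)
    (measure_iUnion_null fun k => null_Back hh hs _ hR k)

/-- The trajectories which come back along the reversed image of the first line. -/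
theorem null_retr (HS : S_SYM) (HE : S_EVEN) (HO : S_ODD) {h : E → ℝ} (hh : ContDiff ℝ 2 h)
    {d : ℕ} (hd : 2 ≤ d) (hE : Module.finrank ℝ E = d) (γ : E ≃ₗᵢ[ℝ] E)
    (hγ : ∀ x, h (γ x) = h x) : μH[((2 * d - 2 : ℕ) : ℝ)]
      {x : E × E | ∃ (n : ℕ) (p u : ℕ → E), 1 ≤ n ∧ Traj h n p u ∧ p 0 = x.1 ∧ u 0 = x.2 ∧
        p n = γ (p 0) ∧ u (n - 1) = -γ (u 0)} = 0 := by
  have hs : (0 : ℝ) ≤ ((2 * d - 2 : ℕ) : ℝ) := Nat.cast_nonneg _
  by_cases h1 : γ = 1
  · subst h1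
    exact null_retrace Pool.Agent.Y515.IV.prove_retr hh hd hE
  · set A : Set (E × E) := {z : E × E | γ z.1 = z.1 ∧ h z.1 = 0 ∧ ‖z.2‖ = 1 ∧
      inner ℝ z.2 (gradient h z.1) < 0} with hA
    set B : Set (E × E) := {z : E × E | h z.1 = 0 ∧ ‖z.2‖ = 1 ∧
      inner ℝ z.2 (gradient h z.1) < 0 ∧ γ z.2 = -z.2 ∧
      ∃ τ : ℝ, γ (z.1 + τ • z.2) = z.1 + τ • z.2} with hB
    have hcov : {x : E × E | ∃ (n : ℕ) (p u : ℕ → E), 1 ≤ n ∧ Traj h n p u ∧ p 0 = x.1 ∧
        u 0 = x.2 ∧ p n = γ (p 0) ∧ u (n - 1) = -γ (u 0)} ⊆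
        (⋃ k : ℕ, Back h A k) ∪ ⋃ k : ℕ, Back h B k := by
      rintro ⟨x, v⟩ ⟨n, p, u, hn, H, hp, hu, hret, hneg⟩
      simp only at hp hu
      rcases HS E h γ n p u (hh.differentiable (by norm_num)) hγ hn H hret hneg with
        ⟨r, hr1, hr2, hr3, hr4⟩ | ⟨r, hr2, hr3, hr4, hr5⟩
      · left
        have hN : (p r, u r) ∈ A := ⟨hr3, H.1 r (by omega)⟩
        have h1 := H.mem_back (k := r) r (by omega) le_rfl hN
        rw [Nat.sub_self, hp, hu] at h1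
        exact mem_iUnion.2 ⟨r, h1⟩
      · right
        have h2 := H.1 r (by omega)
        obtain ⟨⟨t, ht, hpt, _⟩, _⟩ := H.2 r (by omega)
        have hN : (p r, u r) ∈ B := by
          refine ⟨h2.1, h2.2.1, h2.2.2, hr5, t / 2, ?_⟩
          simp only
          rw [map_add, map_smul, hr5, ← hr3, hpt]
          module
        have h1 := H.mem_back (k := r) r (by omega) le_rfl hN
        rw [Nat.sub_self, hp, hu] at h1
        exact mem_iUnion.2 ⟨r, h1⟩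
    refine measure_mono_null hcov (measure_union_null (measure_iUnion_null fun k => ?_)
      (measure_iUnion_null fun k => ?_))
    · exact null_Back hh hs _ (HE E d hd hE h γ hh hγ h1) k
    · exact null_Back hh hs _ (HO E d hd hE h γ hh) k

/-- If all the sets of lines with loops are null then almost every trajectory never comes back to
the orbit of its first bounce point. -/
theorem null_ReturnOrb (HL : S_LOOP2) (HS : S_SYM) (HE : S_EVEN) (HO : S_ODD) {h : E → ℝ}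
    (hh : ContDiff ℝ 2 h) {d : ℕ} (hd : 2 ≤ d) (hE : Module.finrank ℝ E = d)
    (Γ : Subgroup (E ≃ₗᵢ[ℝ] E)) [Finite Γ] (hΓ : Inv Γ h) (N : ℕ)
    {S : ℕ → Type} [∀ J, NormedAddCommGroup (S J)] (ev : ∀ J, S J → E → ℝ)
    (dev : ∀ J, S J → E → E)
    (hsep : ∀ (A : Finset E) (q : E), A.card ≤ N - 1 → (∀ γ ∈ Γ, γ q ∉ A) →
      ∃ (J : ℕ) (b : S J), 0 < ev J b q ∧ ∀ a ∈ A, ev J b a = 0 ∧ dev J b a = 0)
    (hL : ∀ γ ∈ Γ, ∀ (J n m : ℕ) (i : Fin (Module.finrank ℝ E) × Bool), 1 ≤ n → n ≤ N →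
      μH[((2 * d - 2 : ℕ) : ℝ)]
        (Lines2 h γ (ev J) (dev J) (dirs E i) n (1 / ((m : ℝ) + 1)) ((m : ℝ) + 1)) = 0) :
    μH[((2 * d - 2 : ℕ) : ℝ)] (ReturnOrb Γ N h) = 0 := by
  have hs : (0 : ℝ) ≤ ((2 * d - 2 : ℕ) : ℝ) := Nat.cast_nonneg _
  set P : Γ → Set (E × E) := fun γ => {x : E × E | ∃ (n : ℕ) (p u : ℕ → E), 1 ≤ n ∧ Traj h n p u ∧
    p 0 = x.1 ∧ u 0 = x.2 ∧ p n = γ.1 (p 0) ∧ u (n - 1) = -γ.1 (u 0)} with hP
  have hcov : ReturnOrb Γ N h ⊆ (⋃ γ, P γ) ∪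
      ⋃ γ : Γ, ⋃ z : ℕ × ℕ × ℕ × (Fin (Module.finrank ℝ E) × Bool),
      OnLines h (dirs E z.2.2.2) {x | (1 ≤ z.2.1 ∧ z.2.1 ≤ N) ∧
        x ∈ Lines2 h γ.1 (ev z.1) (dev z.1) (dirs E z.2.2.2) z.2.1
        (1 / ((z.2.2.1 : ℝ) + 1)) ((z.2.2.1 : ℝ) + 1)} := by
    classical
    rintro ⟨q, v⟩ ⟨n₀, p, u, hn₀, hN₀, H₀, hp, hu, γ₀, hγ₀, hret₀⟩
    simp only at hp hu
    -- the first return
    have hex : ∃ n, 1 ≤ n ∧ ∃ γ ∈ Γ, p n = γ (p 0) := ⟨n₀, hn₀, γ₀, hγ₀, hret₀⟩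
    set n := Nat.find hex with hndef
    have hn : 1 ≤ n := (Nat.find_spec hex).1
    obtain ⟨γ, hγ, hret⟩ := (Nat.find_spec hex).2
    rw [← hndef] at hret
    have hnn₀ : n ≤ n₀ := Nat.find_min' hex ⟨hn₀, γ₀, hγ₀, hret₀⟩
    have hmin : ∀ k, 0 < k → k < n → ∀ γ ∈ Γ, p k ≠ γ (p 0) := fun k hk hkn γ hγ h0 =>
      Nat.find_min hex hkn ⟨hk, γ, hγ, h0⟩
    have H : Traj h n p u := H₀.mono hnn₀
    by_cases hneg : u (n - 1) = -γ (u 0)
    · exact Or.inl (mem_iUnion.2 ⟨⟨γ, hγ⟩, n, p, u, hn, H, hp, hu, hret, hneg⟩)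
    · right
      obtain ⟨J, b, hb, hb0⟩ := hsep ((Finset.Ioo 0 n).image p) (p 0) (by
        refine Finset.card_image_le.trans ?_
        rw [Nat.card_Ioo]
        omega) (by
        intro γ' hγ' hmem
        obtain ⟨k, hk, hk0⟩ := Finset.mem_image.1 hmem
        rw [Finset.mem_Ioo] at hk
        exact hmin k hk.1 hk.2 γ' hγ' hk0)
      have hu0 : u 0 ≠ 0 := by
        intro h0
        have := (H.1 0 (Nat.zero_le _)).2.1
        rw [h0, norm_zero] at this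
        exact zero_ne_one this
      obtain ⟨i, hi⟩ := exists_dir hu0
      obtain ⟨m, hm⟩ := HL E (S J) h γ (ev J) (dev J) n p u hn H hret hneg b hb
        (fun k hk hkn => hb0 _ (Finset.mem_image.2 ⟨k, Finset.mem_Ioo.2 ⟨hk, hkn⟩, rfl⟩))
        (dirs E i) (dirs_norm i) hi
      refine mem_iUnion.2 ⟨⟨γ, hγ⟩, mem_iUnion.2 ⟨(J, n, m, i), ?_⟩⟩
      rw [← hp, ← hu]
      have e : {x | (1 ≤ n ∧ n ≤ N) ∧ x ∈ Lines2 h γ (ev J) (dev J) (dirs E i) n
          (1 / ((m : ℝ) + 1)) ((m : ℝ) + 1)} =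
          Lines2 h γ (ev J) (dev J) (dirs E i) n (1 / ((m : ℝ) + 1)) ((m : ℝ) + 1) := by
        ext x
        simp [hn, hnn₀.trans hN₀]
      simp only [e]
      exact hm
  refine measure_mono_null hcov (measure_union_null (measure_iUnion_null fun γ => ?_)
    (measure_iUnion_null fun γ => measure_iUnion_null fun z => ?_))
  · exact null_retr HS HE HO hh hd hE γ.1 (hΓ γ.1 γ.2)
  · refine null_OnLines hh hs (dirs_norm _) _ ?_
    by_cases hz : 1 ≤ z.2.1 ∧ z.2.1 ≤ N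
    · exact measure_mono_null (fun x hx => hx.2) (hL γ.1 γ.2 z.1 z.2.1 z.2.2.1 z.2.2.2 hz.1 hz.2)
    · refine measure_mono_null (fun x hx => ?_) (measure_empty)
      exact absurd hx.1 hz

end meas

/-! ### Linear families of functions -/

section fam
variable {S : Type} [NormedAddCommGroup S] [NormedSpace ℝ S] [FiniteDimensional ℝ S]

omit [FiniteDimensional ℝ E] in
theorem ev_contDiff (ev : S →ₗ[ℝ] (E → ℝ)) (hev : ∀ s, ContDiff ℝ 2 (ev s)) :
    ContDiff ℝ 2 (fun z : S × E => ev z.1 z.2) := by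
  set b := Module.finBasis ℝ S with hb
  have h1 : (fun z : S × E => ev z.1 z.2) = fun z : S × E => ∑ i, b.repr z.1 i * ev (b i) z.2 := by
    funext z
    conv_lhs => rw [← b.sum_repr z.1, map_sum, Finset.sum_apply]
    refine Finset.sum_congr rfl fun i _ => ?_
    rw [map_smul, Pi.smul_apply, smul_eq_mul]
  rw [h1]
  refine ContDiff.sum fun i _ => ContDiff.mul ?_ ((hev (b i)).comp contDiff_snd)
  have h2 : ContDiff ℝ 2 (fun s : S => b.repr s i) :=
    (LinearMap.toContinuousLinearMap ((b.coord i) : S →ₗ[ℝ] ℝ)).contDiff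
  exact h2.comp contDiff_fst

theorem gradient_add' {f g : E → ℝ} (hf : Differentiable ℝ f) (hg : Differentiable ℝ g) (x : E) :
    gradient (fun x => f x + g x) x = gradient f x + gradient g x := by
  have := gradient_add_smul hf hg 1 x
  simpa using this

/-- A loop is a good path. -/
theorem good_of_loop {base : E → ℝ} (hb : ContDiff ℝ 2 base) (ev : S →ₗ[ℝ] (E → ℝ))
    (hev : ∀ s, ContDiff ℝ 2 (ev s)) {γ : E ≃ₗᵢ[ℝ] E} (hγb : ∀ x, base (γ x) = base x)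
    (hγ : ∀ s x, ev s (γ x) = ev s x) {e y w : E} (hew : e + w ≠ 0) {n : ℕ} (hn : 1 ≤ n)
    {c M a : ℝ} (hc : 0 < c) {s b : S} {p u : ℕ → E} {τ : ℕ → ℝ}
    (H : Loop2 (fun x => base x + ev s x) (gradient fun x => base x + ev s x) γ
      (fun s => ev s) (fun s => gradient (ev s)) e y w n c M a p u τ b) :
    GoodPath (fun s x => base x + ev s x) s γ y (‖e + w‖⁻¹ • (e + w)) n (a * ‖e + w‖) p u τ := by
  have hn0 : ‖e + w‖ ≠ 0 := norm_ne_zero_iff.2 hew
  set h : E → ℝ := fun x => base x + ev s x with hh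
  have hbd : Differentiable ℝ base := hb.differentiable (by norm_num)
  have hed : ∀ s, Differentiable ℝ (ev s) := fun s => (hev s).differentiable (by norm_num)
  have hhd : Differentiable ℝ h := hbd.add (hed s)
  have hg : ∀ k ≤ n, gradient h (p k) ≠ 0 := by
    intro k hk h0
    have := H.out k hk
    rw [h0, inner_zero_right] at this
    linarith
  have hrefl : ∀ k < n, u (k + 1) = u k - (2 * inner ℝ (u k) (gradient h (p (k + 1))) /
      ‖gradient h (p (k + 1))‖ ^ 2) • gradient h (p (k + 1)) := by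
    intro k hk
    have h1 := hg (k + 1) hk
    have h2 : ‖gradient h (p (k + 1))‖ ^ 2 ≠ 0 := by positivity
    have h3 := H.refl k hk
    have h4 : u (k + 1) = (‖gradient h (p (k + 1))‖ ^ 2)⁻¹ •
        (‖gradient h (p (k + 1))‖ ^ 2 • u (k + 1)) := by
      rw [smul_smul, inv_mul_cancel₀ h2, one_smul]
    rw [h4, h3, smul_sub, smul_smul, smul_smul, inv_mul_cancel₀ h2, one_smul]
    congr 2
    rw [div_eq_inv_mul]
  have hin : ∀ k < n, c ≤ inner ℝ (u k) (gradient h (p (k + 1))) := by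
    intro k hk
    have h1 := hg (k + 1) hk
    have h2 : ‖gradient h (p (k + 1))‖ ^ 2 ≠ 0 := by positivity
    have h3 := H.out (k + 1) hk
    rw [hrefl k hk, inner_sub_left, real_inner_smul_left, real_inner_self_eq_norm_sq] at h3
    have h4 : 2 * inner ℝ (u k) (gradient h (p (k + 1))) / ‖gradient h (p (k + 1))‖ ^ 2 *
        ‖gradient h (p (k + 1))‖ ^ 2 = 2 * inner ℝ (u k) (gradient h (p (k + 1))) := by
      field_simp
    rw [h4] at h3
    linarith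
  have hgrad : ∀ x, gradient h (γ x) = γ (gradient h x) := by
    intro x
    have h1 : h = fun x => h (γ x) := by
      funext x
      simp only [hh, hγb, hγ]
    have h2 : HasFDerivAt (fun x => h (γ x)) ((fderiv ℝ h (γ x)).comp
        (γ.toContinuousLinearEquiv : E →L[ℝ] E)) x :=
      ((hhd (γ x)).hasFDerivAt).comp x (γ.toContinuousLinearEquiv.hasFDerivAt)
    refine ext_inner_left ℝ fun v => ?_
    have h3 : inner ℝ v (γ (gradient h x)) = inner ℝ (γ.symm v) (gradient h x) := by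
      rw [← γ.inner_map_map (γ.symm v) (gradient h x), γ.apply_symm_apply]
    rw [h3, ← fderiv_eq_inner, ← fderiv_eq_inner]
    conv_rhs => rw [h1]
    rw [h2.fderiv]
    simp
  refine
    { start := ?_, dir := ?_, zero := H.zero, unit := H.unit, move := H.move,
      grad := fun k hk => hg (k + 1) hk,
      trans := fun k hk => (hc.trans_le (hin k hk)).ne', refl := hrefl, ret := H.ret,
      non1 := ?_, non2 := ?_, sep := ⟨b, ?_, ev b (p 0), (hc.trans_le H.sep0).ne', ?_⟩ }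
  · rw [H.start, smul_smul, mul_assoc, mul_inv_cancel₀ hn0, mul_one]
  · have h9 : u 0 = ‖e + w‖⁻¹ • (‖e + w‖ • u 0) := by
      rw [smul_smul, inv_mul_cancel₀ hn0, one_smul]
    rw [h9, H.dir]
  · intro h0
    have h1 := hin (n - 1) (by omega)
    have e1 : n - 1 + 1 = n := by omega
    rw [e1, h0, H.ret, hgrad, γ.inner_map_map] at h1
    have h2 := H.out 0 (by omega)
    linarith
  · intro h0
    have h1 := H.nonret
    rw [h0, neg_add_cancel, norm_zero] at h1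
    linarith
  · intro k hk0 hkn
    refine Eventually.of_forall fun ε => ?_
    have h1 := H.sep1 k hk0 hkn
    have h2 := H.sep2 k hk0 hkn
    have e1 : ∀ x, base x + ev (s + ε • b) x = (base x + ev s x) + ε * ev b x := by
      intro x
      rw [map_add, map_smul, Pi.add_apply, Pi.smul_apply, smul_eq_mul]
      ring
    refine ⟨?_, ?_⟩
    · rw [e1, h1, mul_zero, add_zero]
    · have e2 : (fun x => base x + ev (s + ε • b) x) = fun x => h x + ε * ev b x := by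
        funext x; exact e1 x
      rw [e2, gradient_add_smul hhd (hed b), h2, smul_zero, add_zero]
  · have e1 : (fun ε : ℝ => base (p 0) + ev (s + ε • b) (p 0)) =
        fun ε : ℝ => (base (p 0) + ev s (p 0)) + ε * ev b (p 0) := by
      funext ε
      rw [map_add, map_smul, Pi.add_apply, Pi.smul_apply, smul_eq_mul]
      ring
    rw [e1]
    simpa using ((hasDerivAt_id (0 : ℝ)).mul_const (ev b (p 0))).const_add
      (base (p 0) + ev s (p 0))

/-- For a fixed line the parameters with a loop are a null set. -/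
theorem null_slice (HC : S_CORE) [MeasurableSpace S] [BorelSpace S] (μ : Measure S)
    [μ.IsAddHaarMeasure] {base : E → ℝ} (hb : ContDiff ℝ 2 base) (ev : S →ₗ[ℝ] (E → ℝ))
    (hev : ∀ s, ContDiff ℝ 2 (ev s)) {γ : E ≃ₗᵢ[ℝ] E} (hγb : ∀ x, base (γ x) = base x)
    (hγ : ∀ s x, ev s (γ x) = ev s x) {e : E} (he : ‖e‖ = 1) {n : ℕ} (hn : 1 ≤ n)
    {c M : ℝ} (hc : 0 < c) (z : (ℝ ∙ e)ᗮ × (ℝ ∙ e)ᗮ) :
    μ {s | z ∈ Lines2 (fun x => base x + ev s x) γ (fun s => ev s) (fun s => gradient (ev s))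
      e n c M} = 0 := by
  have hew := add_ne_zero_of_mem he z.2
  have h1 := HC E S μ (fun s x => base x + ev s x)
    ((hb.comp contDiff_snd).add (ev_contDiff ev hev)) γ (z.1 : E)
    (‖e + (z.2 : E)‖⁻¹ • (e + (z.2 : E))) n hn (by
      rw [norm_smul, norm_inv, norm_norm, inv_mul_cancel₀ (norm_ne_zero_iff.2 hew)])
  refine measure_mono_null ?_ h1
  rintro s ⟨a, p, u, τ, b, H⟩
  exact ⟨_, p, u, τ, good_of_loop hb ev hev hγb hγ hew hn hc H⟩

end fam

end Q263.IV
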