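import Pool.Agent.Q263.IV.Fin

/-!
# Invariant polynomials
-/

set_option autoImplicit false

open Set MeasureTheory Function Filter Topology
open scoped unitInterval ContDiff

namespace Q263.IV

open Pool.Agent.Y322.IV

section pol
variable {d : ℕ}

theorem pol_add {D : ℕ} (b c : (Fin d → Fin (D + 1)) → ℝ) (x : EuclideanSpace ℝ (Fin d)) :
    pol (b + c) x = pol b x + pol c x := by
  simp [pol, add_mul, Finset.sum_add_distrib]

theorem pol_smul {D : ℕ} (r : ℝ) (c : (Fin d → Fin (D + 1)) → ℝ) (x : EuclideanSpace ℝ (Fin d)) :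
    pol (r • c) x = r * pol c x := by
  simp [pol, Finset.mul_sum, mul_assoc]

theorem pol_contDiff {D : ℕ} (c : (Fin d → Fin (D + 1)) → ℝ) {k : WithTop ℕ∞} :
    ContDiff ℝ k (pol (d := d) c) := by
  unfold pol
  refine ContDiff.sum fun α _ => contDiff_const.mul (contDiff_prod fun i _ => ?_)
  exact ((EuclideanSpace.proj (𝕜 := ℝ) i).contDiff (n := k)).pow _

/-- The coefficient vectors of the polynomials of degree at most `D` in each variable which are
invariant under `Γ`. -/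
def polInv (Γ : Subgroup (EuclideanSpace ℝ (Fin d) ≃ₗᵢ[ℝ] EuclideanSpace ℝ (Fin d))) (D : ℕ) :
    Submodule ℝ ((Fin d → Fin (D + 1)) → ℝ) where
  carrier := {c | Inv Γ (pol c)}
  add_mem' := by
    intro b c hb hc γ hγ x
    rw [pol_add, pol_add, hb γ hγ, hc γ hγ]
  zero_mem' := by
    intro γ _ x
    simp [pol]
  smul_mem' := by
    intro r c hc γ hγ x
    rw [pol_smul, pol_smul, hc γ hγ]

/-- The polynomial as a function of its coefficients. -/
noncomputable def polEv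
    (Γ : Subgroup (EuclideanSpace ℝ (Fin d) ≃ₗᵢ[ℝ] EuclideanSpace ℝ (Fin d))) (D : ℕ) :
    polInv Γ D →ₗ[ℝ] (EuclideanSpace ℝ (Fin d) → ℝ) where
  toFun c := pol c.1
  map_add' b c := by
    funext x
    exact pol_add _ _ _
  map_smul' r b := by
    funext x
    exact pol_smul _ _ _

theorem polEv_apply
    (Γ : Subgroup (EuclideanSpace ℝ (Fin d) ≃ₗᵢ[ℝ] EuclideanSpace ℝ (Fin d))) (D : ℕ)
    (c : polInv Γ D) : polEv Γ D c = pol c.1 := rfl

/-- Almost every invariant polynomial perturbation. -/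
theorem pol_null (HP : S_POLY) (HC : S_CORE) (HK : S_CLOSED2) (HL : S_LOOP2) (HS : S_SYM)
    (HE : S_EVEN) (HO : S_ODD) (hd : 2 ≤ d)
    (Γ : Subgroup (EuclideanSpace ℝ (Fin d) ≃ₗᵢ[ℝ] EuclideanSpace ℝ (Fin d))) [Finite Γ]
    (N D : ℕ) (hD : 2 * Nat.card Γ * (N - 1) ≤ D) (μ : Measure (polInv Γ D))
    [μ.IsAddHaarMeasure] {f : EuclideanSpace ℝ (Fin d) → ℝ} (hf : ContDiff ℝ 2 f)
    (hfΓ : Inv Γ f) :
    ∀ᵐ c ∂μ, μH[((2 * d - 2 : ℕ) : ℝ)] (TwiceOrb Γ N fun x => f x + pol c.1 x) = 0 := by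
  refine fin_null HC HK HL HS HE HO μ hd (by simp) Γ hf hfΓ (polEv Γ D)
    (fun s => pol_contDiff _) (fun s => s.2) N ?_
  intro A q hA hq
  obtain ⟨c, hc1, hc2, hc3⟩ := HP d D N Γ hD A q hA hq
  exact ⟨⟨c, hc1⟩, hc2, hc3⟩

/-- Bound of the derivatives on a ball. -/
theorem exists_bd {g : EuclideanSpace ℝ (Fin d) → ℝ} (hg : ContDiff ℝ 2 g) (R : ℝ) :
    ∃ C : ℝ, 0 < C ∧ ∀ k ≤ 2, ∀ x, ‖x‖ ≤ R → ‖iteratedFDeriv ℝ k g x‖ ≤ C := by
  have h1 : ∀ k : ℕ, k ≤ 2 → ∃ C : ℝ, ∀ x ∈ Metric.closedBall (0 : EuclideanSpace ℝ (Fin d)) R,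
      ‖iteratedFDeriv ℝ k g x‖ ≤ C := by
    intro k hk
    have h2 : Continuous (iteratedFDeriv ℝ k g) :=
      hg.continuous_iteratedFDeriv (by exact_mod_cast hk)
    exact (isCompact_closedBall _ _).exists_bound_of_continuousOn h2.continuousOn
  obtain ⟨C0, h0⟩ := h1 0 (by norm_num)
  obtain ⟨C1, h1'⟩ := h1 1 (by norm_num)
  obtain ⟨C2, h2⟩ := h1 2 (by norm_num)
  refine ⟨max (max C0 C1) (max C2 1), by simp, ?_⟩
  intro k hk x hx
  have hx' : x ∈ Metric.closedBall (0 : EuclideanSpace ℝ (Fin d)) R := by simpa using hx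
  interval_cases k
  · exact (h0 x hx').trans (by simp)
  · exact (h1' x hx').trans (by simp)
  · exact (h2 x hx').trans (by simp)

theorem span_comb {E : Type} {g : ℕ → E → ℝ} {F : E → ℝ}
    (hF : F ∈ Submodule.span ℝ (range g)) :
    ∃ (J : ℕ) (b : Fin J → ℝ), ∀ x, F x = ∑ i, b i * g i x := by
  obtain ⟨c, hc⟩ := (Finsupp.mem_span_range_iff_exists_finsupp).1 hF
  obtain ⟨J, hJ⟩ : ∃ J : ℕ, ∀ i ∈ c.support, i < J :=
    ⟨c.support.sup id + 1, fun i hi => Nat.lt_succ_of_le (Finset.le_sup (f := id) hi)⟩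
  refine ⟨J, fun i => c i, fun x => ?_⟩
  rw [← hc, Finsupp.sum, Finset.sum_apply, Finset.sum_fin_eq_sum_range]
  rw [← Finset.sum_subset (s₁ := c.support) (s₂ := Finset.range J)
    (fun i hi => Finset.mem_range.2 (hJ i hi)) (fun i hi hni => by
      rw [dif_pos (Finset.mem_range.1 hi)]
      simp only
      rw [Finsupp.notMem_support_iff.1 hni, zero_mul])]
  refine Finset.sum_congr rfl fun i hi => ?_
  rw [dif_pos (hJ i hi)]
  rfl

/-- There are arbitrarily small sequences of invariant polynomials which separate `1`-jets. -/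
theorem exists_seq (HP : S_POLY)
    (Γ : Subgroup (EuclideanSpace ℝ (Fin d) ≃ₗᵢ[ℝ] EuclideanSpace ℝ (Fin d))) [Finite Γ]
    (δ : ℕ → ℝ) (hδ : ∀ j, 0 < δ j) :
    ∃ (D : ℕ → ℕ) (c : ∀ j, (Fin d → Fin (D j + 1)) → ℝ), (∀ j, Inv Γ (pol (c j))) ∧
      (∀ j, ∑ α, |c j α| * ((j : ℝ) + 1) ^ (∑ i, (α i : ℕ)) ≤ δ j) ∧
      (∀ R : ℝ, ∃ v : ℕ → ℝ, Summable v ∧ ∀ j : ℕ, ∀ k ≤ 2, ∀ x, ‖x‖ ≤ R →
        ‖iteratedFDeriv ℝ k (pol (c j)) x‖ ≤ v j) ∧
      ∀ (A : Finset (EuclideanSpace ℝ (Fin d))) (q : EuclideanSpace ℝ (Fin d)),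
        (∀ γ ∈ Γ, γ q ∉ A) → ∃ (J : ℕ) (b : Fin J → ℝ),
        0 < comb (fun j => pol (c j)) J b q ∧ ∀ a ∈ A, comb (fun j => pol (c j)) J b a = 0 ∧
          gradient (comb (fun j => pol (c j)) J b) a = 0 := by
  classical
  -- generators of the spaces of invariant polynomials
  have hgen : ∀ D : ℕ, ∃ s : ℕ → polInv Γ D, Submodule.span ℝ (range s) = ⊤ := by
    intro D
    set b := Module.finBasis ℝ (polInv Γ D) with hb
    refine ⟨fun n => if h : n < Module.finrank ℝ (polInv Γ D) then b ⟨n, h⟩ else 0, ?_⟩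
    rw [eq_top_iff, ← b.span_eq]
    refine Submodule.span_mono ?_
    rintro _ ⟨i, rfl⟩
    exact ⟨i, by simp⟩
  choose s hs using hgen
  -- the scaling
  have hsc : ∀ j : ℕ, ∃ ε : ℝ, 0 < ε ∧
      (∑ α, |(ε • (s (Nat.unpair j).1 (Nat.unpair j).2).1) α| *
        ((j : ℝ) + 1) ^ (∑ i, (α i : ℕ)) ≤ δ j) ∧
      ∀ k ≤ 2, ∀ x, ‖x‖ ≤ (j : ℝ) →
        ‖iteratedFDeriv ℝ k (pol (ε • (s (Nat.unpair j).1 (Nat.unpair j).2).1)) x‖ ≤
          (1 / 2) ^ j := by
    intro j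
    set p := (s (Nat.unpair j).1 (Nat.unpair j).2).1 with hp
    obtain ⟨C, hC0, hC⟩ := exists_bd (pol_contDiff p) (j : ℝ)
    set B : ℝ := ∑ α, |p α| * ((j : ℝ) + 1) ^ (∑ i, (α i : ℕ)) with hB
    have hB0 : 0 ≤ B := Finset.sum_nonneg fun α _ => by positivity
    set ε : ℝ := min (δ j / (B + 1)) ((1 / 2) ^ j / C) with hε
    have hε0 : 0 < ε := lt_min (div_pos (hδ j) (by positivity)) (by positivity)
    refine ⟨ε, hε0, ?_, ?_⟩
    · have h1 : ∑ α, |(ε • p) α| * ((j : ℝ) + 1) ^ (∑ i, (α i : ℕ)) = ε * B := by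
        rw [hB, Finset.mul_sum]
        refine Finset.sum_congr rfl fun α _ => ?_
        rw [Pi.smul_apply, smul_eq_mul, abs_mul, abs_of_pos hε0, mul_assoc]
      rw [h1]
      have h2 : ε ≤ δ j / (B + 1) := min_le_left _ _
      calc ε * B ≤ ε * (B + 1) := by nlinarith
        _ ≤ δ j / (B + 1) * (B + 1) := mul_le_mul_of_nonneg_right h2 (by positivity)
        _ = δ j := div_mul_cancel₀ _ (by positivity)
    · intro k hk x hx
      have h1 : pol (d := d) (ε • p) = ε • pol p := by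
        funext x
        exact pol_smul _ _ _
      have h2 : ContDiffAt ℝ k (pol (d := d) p) x := (pol_contDiff p).contDiffAt
      rw [h1, iteratedFDeriv_const_smul_apply h2, norm_smul, Real.norm_of_nonneg hε0.le]
      have h3 : ε ≤ (1 / 2) ^ j / C := min_le_right _ _
      calc ε * ‖iteratedFDeriv ℝ k (pol p) x‖ ≤ ε * C :=
            mul_le_mul_of_nonneg_left (hC k hk x hx) hε0.le
        _ ≤ (1 / 2) ^ j / C * C := mul_le_mul_of_nonneg_right h3 hC0.le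
        _ = (1 / 2) ^ j := div_mul_cancel₀ _ hC0.ne'
  choose ε hε0 hε1 hε2 using hsc
  refine ⟨fun j => (Nat.unpair j).1, fun j => ε j • (s (Nat.unpair j).1 (Nat.unpair j).2).1,
    fun j => (ε j • s (Nat.unpair j).1 (Nat.unpair j).2).2, hε1, ?_, ?_⟩
  · intro R
    have hbd : ∀ j : ℕ, ∃ C : ℝ, 0 < C ∧ ∀ k ≤ 2, ∀ x, ‖x‖ ≤ R → ‖iteratedFDeriv ℝ k
        (pol (ε j • (s (Nat.unpair j).1 (Nat.unpair j).2).1)) x‖ ≤ C :=
      fun j => exists_bd (pol_contDiff _) R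
    choose C hC0 hC using hbd
    refine ⟨fun j => if ⌈R⌉₊ ≤ j then (1 / 2) ^ j else C j, ?_, ?_⟩
    · rw [← summable_nat_add_iff ⌈R⌉₊]
      have h1 : (fun n => if ⌈R⌉₊ ≤ n + ⌈R⌉₊ then ((1 : ℝ) / 2) ^ (n + ⌈R⌉₊)
          else C (n + ⌈R⌉₊)) = fun n => ((1 : ℝ) / 2) ^ (n + ⌈R⌉₊) := by
        funext n
        rw [if_pos (by omega)]
      rw [h1, summable_nat_add_iff (f := fun n => ((1 : ℝ) / 2) ^ n)]
      exact summable_geometric_two
    · intro j k hk x hx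
      simp only
      split_ifs with h
      · exact hε2 j k hk x (hx.trans ((Nat.le_ceil R).trans (by exact_mod_cast h)))
      · exact hC j k hk x hx
  · intro A q hq
    set N := A.card + 1 with hN
    obtain ⟨D, hD⟩ : ∃ D, D = 2 * Nat.card Γ * (N - 1) := ⟨_, rfl⟩
    obtain ⟨c, hc1, hc2, hc3⟩ := HP d D N Γ hD.ge A q (by omega) hq
    set g : ℕ → EuclideanSpace ℝ (Fin d) → ℝ :=
      fun j => pol (ε j • (s (Nat.unpair j).1 (Nat.unpair j).2).1) with hg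
    have hmem : polEv Γ D ⟨c, hc1⟩ ∈ Submodule.span ℝ (range g) := by
      have h1 : (⟨c, hc1⟩ : polInv Γ D) ∈ Submodule.span ℝ (range (s D)) := by
        rw [hs D]; trivial
      have h2 := Submodule.mem_map_of_mem (f := polEv Γ D) h1
      rw [Submodule.map_span] at h2
      refine Submodule.span_le.2 ?_ h2
      rintro _ ⟨_, ⟨n, rfl⟩, rfl⟩
      have h3 : g (Nat.pair D n) = ε (Nat.pair D n) • polEv Γ D (s D n) := by
        funext x
        rw [hg]
        simp only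
        rw [pol_smul, Nat.unpair_pair]
        rfl
      have h4 : polEv Γ D (s D n) = (ε (Nat.pair D n))⁻¹ • g (Nat.pair D n) := by
        rw [h3, smul_smul, inv_mul_cancel₀ (hε0 _).ne', one_smul]
      rw [h4]
      exact Submodule.smul_mem _ _ (Submodule.subset_span ⟨_, rfl⟩)
    obtain ⟨J, b, hb⟩ := span_comb hmem
    have h5 : comb g J b = pol c := by
      funext x
      exact (hb x).symm
    refine ⟨J, b, ?_⟩
    change 0 < comb g J b q ∧ ∀ a ∈ A, comb g J b a = 0 ∧ gradient (comb g J b) a = 0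
    rw [h5]
    exact ⟨hc2, hc3⟩

end pol

end Q263.IV
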